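import Pool.Agent.Lib.MP_743d1e_nt.HY.EXA

/-!
# Local conditions at the roots
-/

set_option autoImplicit false

namespace MP743d1e.Hy

open scoped BigOperators

/-- The absolute value of the leading coefficient of `T` at the root `s i`: `|T'(s i)|` for a
simple root, `|T''(s i)| / 2` for a double root. -/
noncomputable def Dat.lc {k : ℕ} (D : Dat k) (lam : ℤ) (i : Fin k) : ℝ :=
  |(lam : ℝ)| * ∏ j ∈ Finset.univ.erase i, |(D.s i : ℝ) - D.s j| ^ D.w j

/-- A lower bound for `|T|` on the circles around `s i` with radius between `3 / 8` and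
`1 / 2`. -/
noncomputable def Dat.mu {k : ℕ} (D : Dat k) (lam : ℤ) (i : Fin k) : ℝ :=
  |(lam : ℝ)| * (3 / 8) ^ D.w i *
    ∏ j ∈ Finset.univ.erase i, (|(D.s i : ℝ) - D.s j| - 1 / 2) ^ D.w j

/-- Distinct integers have distance at least one. -/
theorem sep_one {k : ℕ} (D : Dat k) : D.Sep 1 := by
  intro i j hij
  have h1 : D.s i - D.s j ≠ 0 := fun h => hij (D.s_inj (sub_eq_zero.1 h))
  have h2 := Int.one_le_abs h1
  exact_mod_cast h2

theorem one_le_dist {k : ℕ} (D : Dat k) {i j : Fin k} (hij : i ≠ j) :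
    1 ≤ |(D.s i : ℝ) - D.s j| := sep_one D i j hij

theorem one_le_w' {k : ℕ} (D : Dat k) (i : Fin k) : 1 ≤ D.w i := by
  rcases D.w_mem i with h | h <;> omega

theorem w_le' {k : ℕ} (D : Dat k) (i : Fin k) : D.w i ≤ 2 := by
  rcases D.w_mem i with h | h <;> omega

theorem lc_le {k : ℕ} (D : Dat k) (lam : ℤ) (i : Fin k) : |(lam : ℝ)| ≤ D.lc lam i := by
  unfold Dat.lc
  refine le_mul_of_one_le_right (abs_nonneg _) ?_
  have h1 : ∏ _j ∈ Finset.univ.erase i, (1 : ℝ) ≤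
      ∏ j ∈ Finset.univ.erase i, |(D.s i : ℝ) - D.s j| ^ D.w j :=
    Finset.prod_le_prod (fun _ _ => zero_le_one) fun j hj =>
      one_le_pow₀ (one_le_dist D (Finset.ne_of_mem_erase hj).symm)
  simpa using h1

theorem prod_half_nonneg {k : ℕ} (D : Dat k) (i : Fin k) :
    0 ≤ ∏ j ∈ Finset.univ.erase i, (|(D.s i : ℝ) - D.s j| - 1 / 2) ^ D.w j :=
  Finset.prod_nonneg fun j hj => pow_nonneg
    (by have := one_le_dist D (Finset.ne_of_mem_erase hj).symm; linarith) _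

/-- `mu` is at most `3 / 8` of the leading coefficient. -/
theorem mu_le_lc {k : ℕ} (D : Dat k) (lam : ℤ) (i : Fin k) :
    D.mu lam i ≤ 3 / 8 * D.lc lam i := by
  have h1 : ((3 : ℝ) / 8) ^ D.w i ≤ 3 / 8 :=
    pow_le_of_le_one (by norm_num) (by norm_num) (by have := one_le_w' D i; omega)
  have h2 : ∏ j ∈ Finset.univ.erase i, (|(D.s i : ℝ) - D.s j| - 1 / 2) ^ D.w j ≤
      ∏ j ∈ Finset.univ.erase i, |(D.s i : ℝ) - D.s j| ^ D.w j :=
    Finset.prod_le_prod (fun j hj => pow_nonneg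
      (by have := one_le_dist D (Finset.ne_of_mem_erase hj).symm; linarith) _)
      fun j hj => pow_le_pow_left₀
        (by have := one_le_dist D (Finset.ne_of_mem_erase hj).symm; linarith) (by linarith) _
  have h3 := prod_half_nonneg D i
  unfold Dat.mu Dat.lc
  calc |(lam : ℝ)| * (3 / 8) ^ D.w i *
        ∏ j ∈ Finset.univ.erase i, (|(D.s i : ℝ) - D.s j| - 1 / 2) ^ D.w j
      ≤ |(lam : ℝ)| * (3 / 8) *
        ∏ j ∈ Finset.univ.erase i, |(D.s i : ℝ) - D.s j| ^ D.w j :=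
        mul_le_mul (mul_le_mul_of_nonneg_left h1 (abs_nonneg _)) h2 h3 (by positivity)
    _ = _ := by ring

/-- `mu` is at least the leading coefficient divided by `4 ^ N`. -/
theorem lc_le_mu {k : ℕ} (D : Dat k) (lam : ℤ) (i : Fin k) :
    D.lc lam i ≤ 4 ^ D.N * D.mu lam i := by
  have h5 : (4 : ℝ) ^ D.N = ∏ j, (4 : ℝ) ^ D.w j := by
    unfold Dat.N
    rw [Finset.prod_pow_eq_pow_sum]
  have h6 : (1 : ℝ) ≤ 4 ^ D.w i * (3 / 8) ^ D.w i := by
    rw [← mul_pow]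
    exact one_le_pow₀ (by norm_num)
  have h7 : ∏ j ∈ Finset.univ.erase i, |(D.s i : ℝ) - D.s j| ^ D.w j ≤
      ∏ j ∈ Finset.univ.erase i, ((4 : ℝ) ^ D.w j * (|(D.s i : ℝ) - D.s j| - 1 / 2) ^ D.w j) := by
    refine Finset.prod_le_prod (fun j _ => by positivity) fun j hj => ?_
    rw [← mul_pow]
    refine pow_le_pow_left₀ (abs_nonneg _) ?_ _
    have := one_le_dist D (Finset.ne_of_mem_erase hj).symm
    linarith
  have h8 : (0 : ℝ) ≤ ∏ j ∈ Finset.univ.erase i, |(D.s i : ℝ) - D.s j| ^ D.w j :=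
    Finset.prod_nonneg fun j _ => by positivity
  rw [h5, ← Finset.mul_prod_erase Finset.univ _ (Finset.mem_univ i)]
  unfold Dat.lc Dat.mu
  rw [Finset.prod_mul_distrib] at h7
  have h9 : 0 ≤ |(lam : ℝ)| := abs_nonneg _
  calc |(lam : ℝ)| * ∏ j ∈ Finset.univ.erase i, |(D.s i : ℝ) - D.s j| ^ D.w j
      ≤ |(lam : ℝ)| * (4 ^ D.w i * (3 / 8) ^ D.w i *
        ((∏ j ∈ Finset.univ.erase i, (4 : ℝ) ^ D.w j) *
          ∏ j ∈ Finset.univ.erase i, (|(D.s i : ℝ) - D.s j| - 1 / 2) ^ D.w j)) := by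
        refine mul_le_mul_of_nonneg_left ?_ h9
        exact h7.trans (le_mul_of_one_le_left (h8.trans h7) h6)
    _ = _ := by ring

end MP743d1e.Hy
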