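import Pool.Agent.Lib.MP_743d1e_nt.HY.Spec
import Pool.Agent.Lib.MP_743d1e_nt.Kae
import Pool.Agent.Lib.MP_743d1e_nt.HY.Loc

section
/-!
# REG: the regulators of the symbols `{(x - s i) / (x - s 0), h}`
-/
set_option autoImplicit false

namespace MP743d1e.Hy.REGM

open scoped BigOperators

/-! ### Algebra of the regulator -/

theorem reg_sym {F : Type} [Field F] (γ : Loop F) (f h : Fˣ) :
    reg γ (sym f h) = regInt (fun θ => γ.ev θ (f : F)) (fun θ => γ.ev θ (h : F)) := by
  rw [reg_eq]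
  exact regOf_sym (specStein specBW) γ f h

theorem regInt_swap (f g : ℝ → ℂ) : regInt f g = -regInt g f := by
  unfold regInt
  rw [← intervalIntegral.integral_neg]
  congr 1
  funext θ
  ring

theorem reg_swap {F : Type} [Field F] (γ : Loop F) (f h : Fˣ) :
    reg γ (sym f h) = -reg γ (sym h f) := by
  rw [reg_sym, reg_sym, regInt_swap]

theorem reg_self {F : Type} [Field F] (γ : Loop F) (f : Fˣ) : reg γ (sym f f) = 0 := by
  have := reg_swap γ f f
  linarith

theorem reg_mul_right {F : Type} [Field F] (γ : Loop F) (f h h' : Fˣ) :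
    reg γ (sym f (h * h')) = reg γ (sym f h) + reg γ (sym f h') := by
  rw [sym_mul_right, map_add]

theorem reg_mul_left {F : Type} [Field F] (γ : Loop F) (f f' h : Fˣ) :
    reg γ (sym (f * f') h) = reg γ (sym f h) + reg γ (sym f' h) := by
  rw [sym_mul_left, map_add]

theorem reg_one_right {F : Type} [Field F] (γ : Loop F) (f : Fˣ) : reg γ (sym f 1) = 0 := by
  have := reg_mul_right γ f 1 1
  rw [mul_one] at this
  linarith

theorem reg_pow_right {F : Type} [Field F] (γ : Loop F) (f h : Fˣ) (n : ℕ) :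
    reg γ (sym f (h ^ n)) = n * reg γ (sym f h) := by
  induction n with
  | zero => simp [reg_one_right]
  | succ n ih =>
    rw [pow_succ, reg_mul_right, ih]
    push_cast
    ring

theorem reg_prod_right {F : Type} [Field F] (γ : Loop F) (f : Fˣ) {ι : Type} (s : Finset ι)
    (h : ι → Fˣ) : reg γ (sym f (∏ i ∈ s, h i)) = ∑ i ∈ s, reg γ (sym f (h i)) := by
  classical
  induction s using Finset.induction_on with
  | empty => simp [reg_one_right]
  | insert a s ha ih => rw [Finset.prod_insert ha, Finset.sum_insert ha, reg_mul_right, ih]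

theorem reg_inv_left {F : Type} [Field F] (γ : Loop F) (f h : Fˣ) :
    reg γ (sym f⁻¹ h) = -reg γ (sym f h) := by
  have h1 := reg_mul_left γ f f⁻¹ h
  rw [mul_inv_cancel, reg_swap, reg_one_right] at h1
  linarith

theorem cast_eq {F : Type} [Field F] (γ : Loop F) (θ : ℝ) (c : ℤ) :
    γ.ev θ (c : F) = (c : ℂ) := map_intCast _ _

/-! ### Distances on the circle -/

variable {g : ℕ} (D : Dat (g + 1)) {t R : ℝ}

theorem norm_circ_sub_self (c : ℤ) (hR : 0 < R) (θ : ℝ) : ‖circ c R θ - (c : ℂ)‖ = R := by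
  have : circ c R θ - (c : ℂ) = (R : ℂ) * Complex.exp (θ * Complex.I) := by simp [circ]
  rw [this, Circ.norm_exp_mul θ hR.le]

theorem lt_dist (hs : D.Sep t) (hR2 : R < t / 2) {a b : Fin (g + 1)} (hab : a ≠ b)
    (hR : 0 < R) : R < |(D.s a : ℝ) - D.s b| := by
  have := hs a b hab
  linarith

theorem le_norm_circ (hs : D.Sep t) (hR : 0 < R) (hR2 : R < t / 2) (a k : Fin (g + 1)) (θ : ℝ) :
    R ≤ ‖circ (D.s k) R θ - (D.s a : ℂ)‖ := by
  by_cases h : k = a
  · subst h
    rw [norm_circ_sub_self _ hR]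
  · have h1 := hs k a h
    have h2 : ‖((D.s k : ℤ) : ℂ) - (D.s a : ℂ)‖ = |(D.s k : ℝ) - D.s a| := by
      rw [← Complex.ofReal_intCast, ← Complex.ofReal_intCast, ← Complex.ofReal_sub,
        Complex.norm_real, Real.norm_eq_abs]
    have h3 : ((D.s k : ℤ) : ℂ) - (D.s a : ℂ) =
        (circ (D.s k) R θ - (D.s a : ℂ)) - (circ (D.s k) R θ - (D.s k : ℂ)) := by ring
    have h4 := norm_sub_le (circ (D.s k) R θ - (D.s a : ℂ)) (circ (D.s k) R θ - (D.s k : ℂ))
    rw [← h3, h2, norm_circ_sub_self _ hR] at h4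
    linarith

theorem le_norm_T (lam : ℤ) (ht : 0 < t) (hs : D.Sep t) (hR1 : t / 4 < R) (hR2 : R < t / 2)
    (k : Fin (g + 1)) (θ : ℝ) :
    |(lam : ℝ)| * (t / 4) ^ D.N ≤ ‖D.T lam (circ (D.s k) R θ)‖ := by
  have hR : 0 < R := by linarith
  unfold Dat.T Dat.N
  rw [norm_mul, Complex.norm_intCast, norm_prod, ← Finset.prod_pow_eq_pow_sum]
  refine mul_le_mul_of_nonneg_left ?_ (abs_nonneg _)
  refine Finset.prod_le_prod (fun i _ => by positivity) fun i _ => ?_
  rw [norm_pow]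
  exact pow_le_pow_left₀ (by positivity) (hR1.le.trans (le_norm_circ D hs hR hR2 i k θ)) _

/-! ### The regulators of linear functions -/

section Lin

variable {K : Type} [Field K] (x : K) (γ : Loop K) (X : Fin (g + 1) → Kˣ) (L : Kˣ)
  (lam : ℤ) (k : Fin (g + 1))

/-- the integral for two linear functions -/
theorem reg_lin (hCIR : SpecCIR) (hs : D.Sep t) (hR : 0 < R) (hR2 : R < t / 2)
    (hX : ∀ a, (X a : K) = x - (D.s a : K)) (hγ : ∀ θ, γ.ev θ x = circ (D.s k) R θ)
    (a b : Fin (g + 1)) : reg γ (sym (X a) (X b)) = 2 * Real.pi *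
      ((if b = k then Real.log |(D.s k : ℝ) - D.s a| else 0) -
        (if a = k then Real.log |(D.s k : ℝ) - D.s b| else 0)) := by
  have hev : ∀ a, (fun θ => γ.ev θ (X a : K)) = fun θ => circ (D.s k) R θ - (D.s a : ℂ) := by
    intro a
    funext θ
    rw [hX, map_sub, hγ, map_intCast]
  by_cases hb : b = k
  · subst hb
    by_cases ha : a = b
    · subst ha
      rw [reg_self]
      simp
    · rw [reg_sym, hev, hev, if_pos rfl, if_neg ha, sub_zero,
        (hCIR (D.s b) (D.s a) 0 R hR (lt_dist D hs hR2 (Ne.symm ha) hR)).2.1]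
  · by_cases ha : a = k
    · subst ha
      rw [reg_swap, reg_sym, hev, hev, if_neg hb, if_pos rfl,
        (hCIR (D.s a) (D.s b) 0 R hR (lt_dist D hs hR2 (Ne.symm hb) hR)).2.1]
      ring
    · rw [reg_sym, hev, hev, if_neg hb, if_neg ha,
        (hCIR (D.s k) (D.s a) (D.s b) R hR (lt_dist D hs hR2 (Ne.symm ha) hR)).1
          (lt_dist D hs hR2 (Ne.symm hb) hR)]
      ring

theorem reg_const (hCIR : SpecCIR) (hs : D.Sep t) (hR : 0 < R) (hR2 : R < t / 2)
    (hX : ∀ a, (X a : K) = x - (D.s a : K)) (hγ : ∀ θ, γ.ev θ x = circ (D.s k) R θ)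
    (hL : (L : K) = (lam : K)) (hlam : lam ≠ 0) (j : Fin (g + 1)) (hj : j ≠ k)
    (a : Fin (g + 1)) : reg γ (sym (X a) L) = 2 * Real.pi *
      (-(if a = k then Real.log |(lam : ℝ)| else 0)) := by
  have hev : ∀ a, (fun θ => γ.ev θ (X a : K)) = fun θ => circ (D.s k) R θ - (D.s a : ℂ) := by
    intro a
    funext θ
    rw [hX, map_sub, hγ, map_intCast]
  have hevL : (fun θ => γ.ev θ (L : K)) = fun _ => ((lam : ℤ) : ℂ) := by
    funext θ
    rw [hL, map_intCast]
  have hlC : ((lam : ℤ) : ℂ) ≠ 0 := by exact_mod_cast hlam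
  by_cases ha : a = k
  · subst ha
    rw [reg_sym, hev, hevL, if_pos rfl,
      (hCIR (D.s a) (D.s j) 0 R hR (lt_dist D hs hR2 (Ne.symm hj) hR)).2.2.2 _ hlC,
      Complex.norm_intCast]
    ring
  · rw [reg_sym, hev, hevL, if_neg ha,
      (hCIR (D.s k) (D.s a) 0 R hR (lt_dist D hs hR2 (Ne.symm ha) hR)).2.2.1 _ hlC]
    ring

theorem reg_T (hCIR : SpecCIR) (hs : D.Sep t) (hR : 0 < R) (hR2 : R < t / 2)
    (hX : ∀ a, (X a : K) = x - (D.s a : K)) (hγ : ∀ θ, γ.ev θ x = circ (D.s k) R θ)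
    (hL : (L : K) = (lam : K)) (hlam : lam ≠ 0) (j : Fin (g + 1)) (hj : j ≠ k)
    (a : Fin (g + 1)) : reg γ (sym (X a) (L * ∏ b, X b ^ D.w b)) = 2 * Real.pi *
      ((D.w k : ℝ) * Real.log |(D.s k : ℝ) - D.s a| -
        if a = k then Real.log |(lam : ℝ)| +
          ∑ b, (D.w b : ℝ) * Real.log |(D.s k : ℝ) - D.s b| else 0) := by
  rw [reg_mul_right, reg_const D x γ X L lam k hCIR hs hR hR2 hX hγ hL hlam j hj a, reg_prod_right]
  simp only [reg_pow_right, reg_lin D x γ X k hCIR hs hR hR2 hX hγ]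
  have h1 : ∀ b, (D.w b : ℝ) * (2 * Real.pi *
      ((if b = k then Real.log |(D.s k : ℝ) - D.s a| else 0) -
        (if a = k then Real.log |(D.s k : ℝ) - D.s b| else 0))) =
      2 * Real.pi * (if b = k then (D.w b : ℝ) * Real.log |(D.s k : ℝ) - D.s a| else 0) -
      2 * Real.pi * (if a = k then (D.w b : ℝ) * Real.log |(D.s k : ℝ) - D.s b| else 0) := by
    intro b
    split_ifs <;> ring
  rw [Finset.sum_congr rfl fun b _ => h1 b, Finset.sum_sub_distrib, ← Finset.mul_sum,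
    ← Finset.mul_sum, Finset.sum_ite_eq' Finset.univ k, if_pos (Finset.mem_univ k)]
  by_cases ha : a = k
  · simp only [ha, if_true]
    ring
  · simp only [ha, if_false, Finset.sum_const_zero]
    ring

end Lin

/-! ### The error term -/

theorem error_bound (hLOG : SpecLOG) (hs : D.Sep t) (hR : 0 < R) (hR2 : R < t / 2)
    (k i j : Fin (g + 1)) (ℓ : ℝ → ℂ) (hℓ : ContDiff ℝ 1 ℓ)
    (hℓp : ∀ θ, ℓ (θ + 2 * Real.pi) = ℓ θ) (δ : ℝ) (hδ : ∀ θ, ‖ℓ θ‖ ≤ δ) :
    |regInt (fun θ => (circ (D.s k) R θ - (D.s i : ℂ)) / (circ (D.s k) R θ - (D.s j : ℂ)))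
      (fun θ => Complex.exp (ℓ θ))| ≤ 4 * Real.pi * δ := by
  set u : ℝ → ℂ := fun θ =>
    (circ (D.s k) R θ - (D.s i : ℂ)) / (circ (D.s k) R θ - (D.s j : ℂ)) with hu
  have hne : ∀ a θ, circ (D.s k) R θ - (D.s a : ℂ) ≠ 0 := by
    intro a θ
    rw [← norm_pos_iff]
    exact lt_of_lt_of_le hR (le_norm_circ D hs hR hR2 a k θ)
  have hc : ContDiff ℝ 1 (circ (D.s k) R) := Circ.contDiff_circ _ _
  have hu1 : ContDiff ℝ 1 u :=
    (hc.sub contDiff_const).mul ((hc.sub contDiff_const).inv (hne j))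
  have hup : ∀ θ, u (θ + 2 * Real.pi) = u θ := by
    intro θ
    simp only [hu, Circ.circ_periodic]
  have hu0 : ∀ θ, u θ ≠ 0 := fun θ => div_ne_zero (hne i θ) (hne j θ)
  have hdu : ∀ θ, deriv u θ / u θ =
      Complex.I * (circ (D.s k) R θ - (D.s k : ℂ)) / (circ (D.s k) R θ - (D.s i : ℂ)) -
      Complex.I * (circ (D.s k) R θ - (D.s k : ℂ)) / (circ (D.s k) R θ - (D.s j : ℂ)) := by
    intro θ
    have h1 := (Circ.hasDerivAt_circ (D.s k) R θ).sub_const (D.s i : ℂ)
    have h2 := (Circ.hasDerivAt_circ (D.s k) R θ).sub_const (D.s j : ℂ)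
    have h3 := h1.div h2 (hne j θ)
    have h4 : deriv u θ = (Complex.I * (circ (D.s k) R θ - (D.s k : ℂ)) *
        (circ (D.s k) R θ - (D.s j : ℂ)) - (circ (D.s k) R θ - (D.s i : ℂ)) *
          (Complex.I * (circ (D.s k) R θ - (D.s k : ℂ)))) /
        (circ (D.s k) R θ - (D.s j : ℂ)) ^ 2 := h3.deriv
    rw [h4]
    simp only [hu]
    have := hne i θ
    have := hne j θ
    field_simp
  have hb : ∀ θ, ‖deriv u θ / u θ‖ ≤ 2 := by
    intro θ
    rw [hdu]
    refine (norm_sub_le _ _).trans ?_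
    have h1 : ∀ a, ‖Complex.I * (circ (D.s k) R θ - (D.s k : ℂ)) /
        (circ (D.s k) R θ - (D.s a : ℂ))‖ ≤ 1 := by
      intro a
      rw [norm_div, Circ.norm_deriv_circ hR]
      exact (div_le_one (norm_pos_iff.2 (hne a θ))).2 (le_norm_circ D hs hR hR2 a k θ)
    linarith [h1 i, h1 j]
  have hδ0 : 0 ≤ δ := (norm_nonneg _).trans (hδ 0)
  rw [regInt_swap, abs_neg, hLOG ℓ u hℓ hu1 hℓp hup hu0]
  have h5 := intervalIntegral.norm_integral_le_of_norm_le_const (a := 0) (b := 2 * Real.pi)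
    (f := fun θ => (ℓ θ * (deriv u θ / u θ)).im) (C := 2 * δ) (fun θ _ => by
      rw [Real.norm_eq_abs]
      refine (Complex.abs_im_le_norm _).trans ?_
      rw [norm_mul]
      have := hδ θ
      have := hb θ
      nlinarith [norm_nonneg (ℓ θ), norm_nonneg (deriv u θ / u θ)])
  rw [Real.norm_eq_abs, sub_zero, abs_of_pos (by positivity : (0 : ℝ) < 2 * Real.pi)] at h5
  linarith

end MP743d1e.Hy.REGM

namespace MP743d1e.Hy

open scoped BigOperators
open REGM in
/-- REG -/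
theorem specREG (hRAD : SpecRAD) (hEMB : SpecEMB) (hPTH : SpecPTH) (hLOG : SpecLOG)
    (hCIR : SpecCIR) : SpecREG := by
  intro K _ _ g D lam x h t hC ht hs hB u hh hu hhh
  obtain ⟨R, hR1, hR2, htr⟩ := hRAD t ht
  have hR : 0 < R := by linarith
  have hlam : lam ≠ 0 := by
    rintro rfl
    simp at hB
    linarith
  have hpath : ∀ k : Fin g, ∃ (γ : Loop K) (ℓ : ℝ → ℂ), ContDiff ℝ 1 ℓ ∧
      (∀ θ, ℓ (θ + 2 * Real.pi) = ℓ θ) ∧ (∀ θ, ‖ℓ θ‖ ≤ 4 / (|(lam : ℝ)| * (t / 4) ^ D.N)) ∧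
      (∀ θ, γ.ev θ x = circ (D.s k.succ) R θ) ∧
      ∀ θ, γ.ev θ h = D.T lam (circ (D.s k.succ) R θ) * Complex.exp (ℓ θ) := by
    intro k
    obtain ⟨H, ℓ, hH, hℓ, hHp, hℓp, hHT, hHe, hℓb⟩ := hPTH D lam (D.s k.succ) R _ hB
      (fun θ => le_norm_T D lam ht hs hR1 hR2 k.succ θ)
    obtain ⟨γ, hγ⟩ := hEMB K D lam x h hlam hC (circ (D.s k.succ) R) H (Circ.contDiff_circ _ _) hH
      (Circ.circ_periodic _ _) hHp (htr _) hHe
    exact ⟨γ, ℓ, hℓ, hℓp, hℓb, fun θ => (hγ θ).1, fun θ => by rw [(hγ θ).2, hHT]⟩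
  choose γ ℓ hℓ hℓp hℓb hγx hγh using hpath
  refine ⟨γ, fun i k => ?_⟩
  -- the units
  have hx0 : ∀ a : Fin (g + 1), x - (D.s a : K) ≠ 0 := by
    intro a ha
    have hx : x = algebraMap ℚ K (D.s a : ℚ) := by
      rw [map_intCast]
      exact sub_eq_zero.1 ha
    exact hC.transc (hx ▸ isAlgebraic_algebraMap _)
  have : CharZero K := charZero_of_injective_algebraMap (algebraMap ℚ K).injective
  have hl0 : (lam : K) ≠ 0 := by exact_mod_cast hlam
  set X : Fin (g + 1) → Kˣ := fun a => Units.mk0 _ (hx0 a) with hXdef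
  have hX : ∀ a, (X a : K) = x - (D.s a : K) := fun a => rfl
  set L : Kˣ := Units.mk0 _ hl0 with hLdef
  have hL : (L : K) = (lam : K) := rfl
  set Tu : Kˣ := L * ∏ b, X b ^ D.w b with hTu
  have hTv : (Tu : K) = D.T lam x := by
    rw [hTu, Units.val_mul, Units.coe_prod]
    unfold Dat.T
    simp only [Units.val_pow_eq_pow_val, hX, hL]
  have hui : u i = X i.succ * (X 0)⁻¹ := by
    apply Units.ext
    rw [Units.val_mul, Units.val_inv_eq_inv_val, hX, hX, ← hu i, mul_inv_cancel_right₀ (hx0 0)]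
  have hk0 : (0 : Fin (g + 1)) ≠ k.succ := (Fin.succ_ne_zero k).symm
  set q : Kˣ := hh * Tu⁻¹ with hq
  have hhq : hh = Tu * q := by
    rw [hq, mul_comm hh, mul_inv_cancel_left]
  have hmain : reg (γ k) (sym (u i) Tu) = 2 * Real.pi * D.A lam i k := by
    rw [hui, reg_mul_left, reg_inv_left,
      reg_T D x (γ k) X L lam k.succ hCIR hs hR hR2 hX (hγx k) hL hlam 0 hk0 i.succ,
      reg_T D x (γ k) X L lam k.succ hCIR hs hR hR2 hX (hγx k) hL hlam 0 hk0 0, if_neg hk0]
    unfold Dat.A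
    simp only [Fin.succ_inj]
    ring
  have herr : |reg (γ k) (sym (u i) q)| ≤ 16 * Real.pi / (|(lam : ℝ)| * (t / 4) ^ D.N) := by
    rw [reg_sym]
    have h1 : (fun θ => (γ k).ev θ (u i : K)) = fun θ =>
        (circ (D.s k.succ) R θ - (D.s i.succ : ℂ)) / (circ (D.s k.succ) R θ - (D.s 0 : ℂ)) := by
      funext θ
      rw [hui, Units.val_mul, Units.val_inv_eq_inv_val, map_mul, map_inv₀, hX, hX, map_sub, map_sub,
        hγx, map_intCast, map_intCast, div_eq_mul_inv]
    have h2 : (fun θ => (γ k).ev θ (q : K)) = fun θ => Complex.exp (ℓ k θ) := by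
      funext θ
      have hTne : D.T lam (circ (D.s k.succ) R θ) ≠ 0 := by
        rw [← norm_pos_iff]
        have h3 := le_norm_T D lam ht hs hR1 hR2 k.succ θ
        linarith
      have hTev : (γ k).ev θ (Tu : K) = D.T lam (circ (D.s k.succ) R θ) := by
        rw [hTv]
        unfold Dat.T
        simp only [map_mul, map_prod, map_pow, map_sub, map_intCast, hγx]
      rw [hq, Units.val_mul, Units.val_inv_eq_inv_val, map_mul, map_inv₀, hTev, hhh, hγh]
      field_simp
    rw [h1, h2]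
    refine (error_bound D hLOG hs hR hR2 k.succ i.succ 0 (ℓ k) (hℓ k) (hℓp k) _ (hℓb k)).trans
      (le_of_eq ?_)
    ring
  rw [hhq, reg_mul_right, hmain, add_sub_cancel_left]
  exact herr

end MP743d1e.Hy
end

section
/-!
# REL: the regulators under the local conditions
-/
set_option autoImplicit false

namespace MP743d1e.Hy.RELM

open scoped BigOperators
open REGM

variable {g : ℕ} (D : Dat (g + 1)) {R : ℝ}

/-- A radius such that all circles around integers avoid the algebraic numbers. -/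
theorem radius (a b : ℝ) (hab : a < b) : ∃ R : ℝ, a < R ∧ R < b ∧
    ∀ (c : ℤ) (θ : ℝ), Transcendental ℚ (circ c R θ) := by
  have hc : {x : ℝ | IsAlgebraic ℚ x}.Countable := Algebraic.countable ℚ ℝ
  obtain ⟨ρ, h1, h2⟩ := (hc.dense_compl ℝ).exists_between hab
  refine ⟨ρ, h2.1, h2.2, fun c θ h => h1 ?_⟩
  have h3 : IsAlgebraic ℚ (circ c ρ θ - (c : ℂ)) := h.sub (isAlgebraic_intCast c)
  have h4 : IsAlgebraic ℚ ((starRingEnd ℂ) (circ c ρ θ - (c : ℂ))) :=
    h3.algHom ((Complex.conjAe.toAlgHom).restrictScalars ℚ)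
  have h5 := h3.mul h4
  have h6 : (circ c ρ θ - (c : ℂ)) * (starRingEnd ℂ) (circ c ρ θ - (c : ℂ)) = ((ρ : ℝ) : ℂ) ^ 2 := by
    have : circ c ρ θ - (c : ℂ) = (ρ : ℂ) * Complex.exp (θ * Complex.I) := by
      simp [circ]
    rw [this, map_mul, Complex.conj_ofReal, ← Complex.exp_conj, map_mul, Complex.conj_I,
      Complex.conj_ofReal]
    have : Complex.exp (θ * Complex.I) * Complex.exp (θ * -Complex.I) = 1 := by
      rw [← Complex.exp_add]
      simp
    linear_combination (ρ : ℂ) ^ 2 * this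
  rw [h6] at h5
  have h7 : IsAlgebraic ℚ ((ρ : ℝ) : ℂ) := h5.of_pow (by norm_num)
  have h8 : IsAlgebraic ℚ (algebraMap ℝ ℂ ρ) := h7
  exact (isAlgebraic_algebraMap_iff (algebraMap ℝ ℂ).injective).1 h8

theorem half_le (hR : 0 < R) (hR2 : R < 1 / 2) {k a : Fin (g + 1)} (θ : ℝ) :
    |(D.s k : ℝ) - D.s a| - 1 / 2 ≤ ‖circ (D.s k) R θ - (D.s a : ℂ)‖ := by
  have h2 : ‖((D.s k : ℤ) : ℂ) - (D.s a : ℂ)‖ = |(D.s k : ℝ) - D.s a| := by
    rw [← Complex.ofReal_intCast, ← Complex.ofReal_intCast, ← Complex.ofReal_sub,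
      Complex.norm_real, Real.norm_eq_abs]
  have h3 : ((D.s k : ℤ) : ℂ) - (D.s a : ℂ) =
      (circ (D.s k) R θ - (D.s a : ℂ)) - (circ (D.s k) R θ - (D.s k : ℂ)) := by ring
  have h4 := norm_sub_le (circ (D.s k) R θ - (D.s a : ℂ)) (circ (D.s k) R θ - (D.s k : ℂ))
  rw [← h3, h2, norm_circ_sub_self _ hR] at h4
  linarith

theorem le_norm_T (lam : ℤ) (hR1 : 3 / 8 < R) (hR2 : R < 1 / 2) (k : Fin (g + 1)) (θ : ℝ) :
    D.mu lam k ≤ ‖D.T lam (circ (D.s k) R θ)‖ := by
  have hR : 0 < R := by linarith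
  unfold Dat.mu Dat.T
  rw [norm_mul, Complex.norm_intCast, norm_prod, mul_assoc]
  refine mul_le_mul_of_nonneg_left ?_ (abs_nonneg _)
  rw [← Finset.mul_prod_erase Finset.univ (fun j =>
    ‖(circ (D.s k) R θ - (D.s j : ℂ)) ^ D.w j‖) (Finset.mem_univ k)]
  have h6 : (3 / 8) ^ D.w k ≤ ‖(circ (D.s k) R θ - (D.s k : ℂ)) ^ D.w k‖ := by
    rw [norm_pow, norm_circ_sub_self _ hR]
    exact pow_le_pow_left₀ (by norm_num) hR1.le _
  have h7 : ∏ j ∈ Finset.univ.erase k, (|(D.s k : ℝ) - D.s j| - 1 / 2) ^ D.w j ≤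
      ∏ j ∈ Finset.univ.erase k, ‖(circ (D.s k) R θ - (D.s j : ℂ)) ^ D.w j‖ := by
    refine Finset.prod_le_prod (fun j hj => pow_nonneg
      (by have := one_le_dist D (Finset.ne_of_mem_erase hj).symm; linarith) _) fun j hj => ?_
    rw [norm_pow]
    exact pow_le_pow_left₀
      (by have := one_le_dist D (Finset.ne_of_mem_erase hj).symm; linarith)
      (half_le D hR hR2 θ) _
  exact mul_le_mul h6 h7 (prod_half_nonneg D k) (norm_nonneg _)

end MP743d1e.Hy.RELM

namespace MP743d1e.Hy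

open scoped BigOperators
open REGM in
/-- REL -/
theorem reg_loc (hEMB : SpecEMB) (hPTH : SpecPTH) (hLOG : SpecLOG)
    (hCIR : SpecCIR) (K : Type) [Field K] [Algebra ℚ K] {g : ℕ} (D : Dat (g + 1)) (lam : ℤ)
    (x h : K) (hC : IsHyp ℚ K D lam x h) (hlam : lam ≠ 0)
    (hB : ∀ k : Fin g, 16 ≤ D.mu lam k.succ) (u : Fin g → Kˣ) (hh : Kˣ)
    (hu : ∀ i, (u i : K) * (x - (D.s 0 : K)) = x - (D.s i.succ : K)) (hhh : (hh : K) = h) :
    ∃ γ : Fin g → Loop K, ∀ i k, |reg (γ k) (sym (u i) hh) - 2 * Real.pi * D.A lam i k| ≤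
      16 * Real.pi / D.mu lam k.succ := by
  have hs := sep_one D
  obtain ⟨R, hR1, hR2, htr⟩ := RELM.radius (3 / 8) (1 / 2) (by norm_num)
  have hR : 0 < R := by linarith
  have hpath : ∀ k : Fin g, ∃ (γ : Loop K) (ℓ : ℝ → ℂ), ContDiff ℝ 1 ℓ ∧
      (∀ θ, ℓ (θ + 2 * Real.pi) = ℓ θ) ∧ (∀ θ, ‖ℓ θ‖ ≤ 4 / D.mu lam k.succ) ∧
      (∀ θ, γ.ev θ x = circ (D.s k.succ) R θ) ∧
      ∀ θ, γ.ev θ h = D.T lam (circ (D.s k.succ) R θ) * Complex.exp (ℓ θ) := by
    intro k
    obtain ⟨H, ℓ, hH, hℓ, hHp, hℓp, hHT, hHe, hℓb⟩ := hPTH D lam (D.s k.succ) R _ (hB k)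
      (fun θ => RELM.le_norm_T D lam hR1 hR2 k.succ θ)
    obtain ⟨γ, hγ⟩ := hEMB K D lam x h hlam hC (circ (D.s k.succ) R) H (Circ.contDiff_circ _ _) hH
      (Circ.circ_periodic _ _) hHp (htr _) hHe
    exact ⟨γ, ℓ, hℓ, hℓp, hℓb, fun θ => (hγ θ).1, fun θ => by rw [(hγ θ).2, hHT]⟩
  choose γ ℓ hℓ hℓp hℓb hγx hγh using hpath
  refine ⟨γ, fun i k => ?_⟩
  -- the units
  have hx0 : ∀ a : Fin (g + 1), x - (D.s a : K) ≠ 0 := by
    intro a ha
    have hx : x = algebraMap ℚ K (D.s a : ℚ) := by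
      rw [map_intCast]
      exact sub_eq_zero.1 ha
    exact hC.transc (hx ▸ isAlgebraic_algebraMap _)
  have : CharZero K := charZero_of_injective_algebraMap (algebraMap ℚ K).injective
  have hl0 : (lam : K) ≠ 0 := by exact_mod_cast hlam
  set X : Fin (g + 1) → Kˣ := fun a => Units.mk0 _ (hx0 a) with hXdef
  have hX : ∀ a, (X a : K) = x - (D.s a : K) := fun a => rfl
  set L : Kˣ := Units.mk0 _ hl0 with hLdef
  have hL : (L : K) = (lam : K) := rfl
  set Tu : Kˣ := L * ∏ b, X b ^ D.w b with hTu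
  have hTv : (Tu : K) = D.T lam x := by
    rw [hTu, Units.val_mul, Units.coe_prod]
    unfold Dat.T
    simp only [Units.val_pow_eq_pow_val, hX, hL]
  have hui : u i = X i.succ * (X 0)⁻¹ := by
    apply Units.ext
    rw [Units.val_mul, Units.val_inv_eq_inv_val, hX, hX, ← hu i, mul_inv_cancel_right₀ (hx0 0)]
  have hk0 : (0 : Fin (g + 1)) ≠ k.succ := (Fin.succ_ne_zero k).symm
  set q : Kˣ := hh * Tu⁻¹ with hq
  have hhq : hh = Tu * q := by
    rw [hq, mul_comm hh, mul_inv_cancel_left]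
  have hmain : reg (γ k) (sym (u i) Tu) = 2 * Real.pi * D.A lam i k := by
    rw [hui, reg_mul_left, reg_inv_left,
      reg_T D x (γ k) X L lam k.succ hCIR hs hR hR2 hX (hγx k) hL hlam 0 hk0 i.succ,
      reg_T D x (γ k) X L lam k.succ hCIR hs hR hR2 hX (hγx k) hL hlam 0 hk0 0, if_neg hk0]
    unfold Dat.A
    simp only [Fin.succ_inj]
    ring
  have herr : |reg (γ k) (sym (u i) q)| ≤ 16 * Real.pi / D.mu lam k.succ := by
    rw [reg_sym]
    have h1 : (fun θ => (γ k).ev θ (u i : K)) = fun θ =>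
        (circ (D.s k.succ) R θ - (D.s i.succ : ℂ)) / (circ (D.s k.succ) R θ - (D.s 0 : ℂ)) := by
      funext θ
      rw [hui, Units.val_mul, Units.val_inv_eq_inv_val, map_mul, map_inv₀, hX, hX, map_sub, map_sub,
        hγx, map_intCast, map_intCast, div_eq_mul_inv]
    have h2 : (fun θ => (γ k).ev θ (q : K)) = fun θ => Complex.exp (ℓ k θ) := by
      funext θ
      have hTne : D.T lam (circ (D.s k.succ) R θ) ≠ 0 := by
        rw [← norm_pos_iff]
        have h3 := RELM.le_norm_T D lam hR1 hR2 k.succ θ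
        have h4 := hB k
        linarith
      have hTev : (γ k).ev θ (Tu : K) = D.T lam (circ (D.s k.succ) R θ) := by
        rw [hTv]
        unfold Dat.T
        simp only [map_mul, map_prod, map_pow, map_sub, map_intCast, hγx]
      rw [hq, Units.val_mul, Units.val_inv_eq_inv_val, map_mul, map_inv₀, hTev, hhh, hγh]
      field_simp
    rw [h1, h2]
    refine (error_bound D hLOG hs hR hR2 k.succ i.succ 0 (ℓ k) (hℓ k) (hℓp k) _ (hℓb k)).trans
      (le_of_eq ?_)
    ring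
  rw [hhq, reg_mul_right, hmain, add_sub_cancel_left]
  exact herr

end MP743d1e.Hy
end

section
/-!
# Module CIR: the regulator integrals of linear functions on a circle
-/
set_option autoImplicit false

namespace MP743d1e.Hy

open scoped BigOperators

namespace CIRM

/-- The holomorphic branch of `log (z - a)` on a disc around `c` not containing `a`. -/
noncomputable def L (c a : ℤ) (z : ℂ) : ℂ :=
  Complex.log ((c : ℂ) - a) + Complex.log (1 + (z - c) / ((c : ℂ) - a))

variable {c a : ℤ} {R : ℝ}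

lemma ca_ne (h0 : 0 < R) (h1 : R < |(c : ℝ) - a|) : (c : ℂ) - a ≠ 0 := by
  intro h
  have h2 : (c : ℝ) - a = 0 := by exact_mod_cast h
  rw [h2, abs_zero] at h1
  linarith

lemma norm_ca : ‖(c : ℂ) - a‖ = |(c : ℝ) - a| := by
  have : (c : ℂ) - a = (((c : ℝ) - a : ℝ) : ℂ) := by push_cast; ring
  rw [this, Complex.norm_real, Real.norm_eq_abs]

lemma slit (h0 : 0 < R) (h1 : R < |(c : ℝ) - a|) {z : ℂ} (hz : ‖z - c‖ ≤ R) :
    1 + (z - c) / ((c : ℂ) - a) ∈ Complex.slitPlane := by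
  apply Complex.mem_slitPlane_of_norm_lt_one
  rw [norm_div, norm_ca, div_lt_one (by linarith)]
  linarith

lemma exp_L (h0 : 0 < R) (h1 : R < |(c : ℝ) - a|) {z : ℂ} (hz : ‖z - c‖ ≤ R) :
    Complex.exp (L c a z) = z - a := by
  have h2 := ca_ne h0 h1
  unfold L
  rw [Complex.exp_add, Complex.exp_log h2, Complex.exp_log (Complex.slitPlane_ne_zero
    (slit h0 h1 hz))]
  field_simp
  ring

lemma differentiableAt_L (h0 : 0 < R) (h1 : R < |(c : ℝ) - a|) {z : ℂ} (hz : ‖z - c‖ ≤ R) :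
    DifferentiableAt ℂ (L c a) z := by
  have h2 : DifferentiableAt ℂ (fun w : ℂ => 1 + (w - c) / ((c : ℂ) - a)) z :=
    ((differentiableAt_id.sub_const _).div_const _).const_add _
  exact (h2.clog (slit h0 h1 hz)).const_add _

lemma norm_circ_sub (h0 : 0 < R) (θ : ℝ) : ‖circ c R θ - c‖ ≤ R := by
  have : circ c R θ - (c : ℂ) = (R : ℂ) * Complex.exp (θ * Complex.I) := by simp [circ]
  rw [this, Circ.norm_exp_mul θ h0.le]

lemma contDiff_l (h0 : 0 < R) (h1 : R < |(c : ℝ) - a|) :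
    ContDiff ℝ 1 (fun θ => L c a (circ c R θ)) := by
  rw [contDiff_iff_contDiffAt]
  intro θ
  have h2 : ContDiffAt ℝ 1 Complex.log (1 + (circ c R θ - c) / ((c : ℂ) - a)) :=
    (Complex.contDiffAt_log (slit h0 h1 (norm_circ_sub h0 θ))).restrict_scalars ℝ
  have h3 : ContDiffAt ℝ 1 (fun θ => 1 + (circ c R θ - c) / ((c : ℂ) - a)) θ :=
    (contDiff_const.add (((Circ.contDiff_circ c R).sub contDiff_const).div_const _)).contDiffAt
  have h4 : ContDiffAt ℝ 1 (fun θ => Complex.log (1 + (circ c R θ - c) / ((c : ℂ) - a))) θ :=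
    ContDiffAt.comp (g := Complex.log) (f := fun θ => 1 + (circ c R θ - c) / ((c : ℂ) - a)) θ h2 h3
  exact contDiffAt_const.add h4

lemma l_periodic (θ : ℝ) : L c a (circ c R (θ + 2 * Real.pi)) = L c a (circ c R θ) := by
  rw [Circ.circ_periodic]

lemma circ_sub_ne (h0 : 0 < R) {b : ℤ} (hb : R < |(c : ℝ) - b|) (θ : ℝ) :
    circ c R θ - (b : ℂ) ≠ 0 := by
  intro h
  have h1 : circ c R θ - c = -((c : ℂ) - b) := by linear_combination h
  have h2 := norm_circ_sub (c := c) h0 θ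
  rw [h1, norm_neg, norm_ca] at h2
  linarith

lemma circ_sub_self_ne (h0 : 0 < R) (θ : ℝ) : circ c R θ - (c : ℂ) ≠ 0 := by
  have : circ c R θ - (c : ℂ) = (R : ℂ) * Complex.exp (θ * Complex.I) := by simp [circ]
  rw [this]
  exact mul_ne_zero (by exact_mod_cast h0.ne') (Complex.exp_ne_zero _)

lemma deriv_circ_sub (b : ℂ) (θ : ℝ) :
    deriv (fun θ => circ c R θ - b) θ = Complex.I * (circ c R θ - (c : ℂ)) :=
  ((Circ.hasDerivAt_circ c R θ).sub_const b).deriv

lemma regInt_congr {f f' g : ℝ → ℂ} (h : ∀ θ, f θ = f' θ) : regInt f g = regInt f' g := by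
  have : f = f' := funext h
  rw [this]

/-- with LOG -/
lemma regLEq (hLOG : SpecLOG) (h0 : 0 < R) (h1 : R < |(c : ℝ) - a|) (g : ℝ → ℂ)
    (hg : ContDiff ℝ 1 g) (hp : ∀ θ, g (θ + 2 * Real.pi) = g θ) (hg0 : ∀ θ, g θ ≠ 0) :
    regInt (fun θ => circ c R θ - (a : ℂ)) g =
      ∫ θ in (0 : ℝ)..(2 * Real.pi), (L c a (circ c R θ) * (deriv g θ / g θ)).im := by
  rw [← hLOG (fun θ => L c a (circ c R θ)) g (contDiff_l h0 h1) hg l_periodic hp hg0]
  exact regInt_congr fun θ => (exp_L h0 h1 (norm_circ_sub h0 θ)).symm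

lemma im_integral (f : ℝ → ℂ) (hf : Continuous f) :
    ∫ θ in (0 : ℝ)..(2 * Real.pi), (f θ).im = (∫ θ in (0 : ℝ)..(2 * Real.pi), f θ).im := by
  have := Complex.imCLM.intervalIntegral_comp_comm
    (hf.intervalIntegrable (μ := MeasureTheory.volume) 0 (2 * Real.pi))
  exact this

end CIRM

open CIRM in
theorem specCIR (hLOG : SpecLOG) : SpecCIR := by
  intro c a b R h0 h1
  have hlc : Continuous (fun θ => L c a (circ c R θ)) := (contDiff_l h0 h1).continuous
  have hcc : Continuous (circ c R) := (Circ.contDiff_circ (n := 1) c R).continuous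
  refine ⟨?_, ?_, ?_, ?_⟩
  · intro hb
    rw [regLEq hLOG h0 h1 _ ((Circ.contDiff_circ c R).sub contDiff_const)
      (fun θ => by rw [Circ.circ_periodic]) (circ_sub_ne h0 hb)]
    have h2 : ∀ θ, (L c a (circ c R θ) * (deriv (fun θ => circ c R θ - (b : ℂ)) θ /
        (circ c R θ - (b : ℂ)))) =
        deriv (circleMap (c : ℂ) R) θ • (fun z => L c a z / (z - b)) (circleMap (c : ℂ) R θ) := by
      intro θ
      rw [deriv_circ_sub, deriv_circleMap]
      show _ = (circleMap 0 R θ * Complex.I) • (L c a (circ c R θ) / (circ c R θ - b))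
      have h3 : circleMap 0 R θ = circ c R θ - c := by
        simp [circ, circleMap]
      rw [h3, smul_eq_mul]
      ring
    simp_rw [h2]
    rw [im_integral]
    · have h4 : ∮ z in C((c : ℂ), R), (fun z => L c a z / (z - b)) z = 0 := by
        have hd : ∀ z ∈ Metric.closedBall (c : ℂ) R,
            DifferentiableAt ℂ (fun z => L c a z / (z - b)) z := by
          intro z hz
          rw [mem_closedBall_iff_norm] at hz
          refine (differentiableAt_L h0 h1 hz).div (differentiableAt_id.sub_const _) ?_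
          intro h
          have h5 : z - c = -((c : ℂ) - b) := by
            have : z - (b : ℂ) = 0 := h
            linear_combination this
          rw [h5, norm_neg, norm_ca] at hz
          linarith
        refine Complex.circleIntegral_eq_zero_of_differentiable_on_off_countable h0.le
          Set.countable_empty (fun z hz => (hd z hz).continuousAt.continuousWithinAt) ?_
        rintro z ⟨hz, _⟩
        exact hd z (Metric.ball_subset_closedBall hz)
      unfold circleIntegral at h4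
      rw [h4, Complex.zero_im]
    · refine Continuous.congr ?_ h2
      refine hlc.mul (Continuous.div ?_ (hcc.sub continuous_const) (circ_sub_ne h0 hb))
      have : deriv (fun θ => circ c R θ - (b : ℂ)) = fun θ => Complex.I * (circ c R θ - (c : ℂ)) :=
        funext fun θ => deriv_circ_sub _ θ
      rw [this]
      exact continuous_const.mul (hcc.sub continuous_const)
  · rw [regLEq hLOG h0 h1 _ ((Circ.contDiff_circ c R).sub contDiff_const)
      (fun θ => by rw [Circ.circ_periodic]) (circ_sub_self_ne h0)]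
    have h2 : ∀ θ, (L c a (circ c R θ) * (deriv (fun θ => circ c R θ - (c : ℂ)) θ /
        (circ c R θ - (c : ℂ)))) =
        deriv (circleMap (c : ℂ) R) θ • (fun z : ℂ => (z - (c : ℂ))⁻¹ • L c a z) (circleMap (c : ℂ) R θ) := by
      intro θ
      rw [deriv_circ_sub, deriv_circleMap]
      show _ = (circleMap 0 R θ * Complex.I) • ((circ c R θ - (c : ℂ))⁻¹ • L c a (circ c R θ))
      have h3 : circleMap 0 R θ = circ c R θ - c := by
        simp [circ, circleMap]
      rw [h3, smul_eq_mul, smul_eq_mul]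
      ring
    simp_rw [h2]
    rw [im_integral]
    · have h4 : ∮ z in C((c : ℂ), R), (fun z : ℂ => (z - (c : ℂ))⁻¹ • L c a z) z =
          (2 * Real.pi * Complex.I : ℂ) • L c a c := by
        refine DifferentiableOn.circleIntegral_sub_inv_smul (c := (c : ℂ)) (R := R)
          (w := (c : ℂ)) ?_ (Metric.mem_ball_self h0)
        intro z hz
        rw [mem_closedBall_iff_norm] at hz
        exact (differentiableAt_L h0 h1 hz).differentiableWithinAt
      unfold circleIntegral at h4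
      rw [h4]
      unfold L
      rw [sub_self, zero_div, add_zero, Complex.log_one, add_zero, smul_eq_mul]
      have h5 : (2 * (Real.pi : ℂ) * Complex.I) * Complex.log ((c : ℂ) - a) =
          ((2 * Real.pi : ℝ) : ℂ) * (Complex.I * Complex.log ((c : ℂ) - a)) := by
        push_cast; ring
      rw [h5, Complex.re_ofReal_mul |> fun _ => Complex.im_ofReal_mul, Complex.I_mul_im,
        Complex.log_re, norm_ca]
    · refine Continuous.congr ?_ h2
      refine hlc.mul (Continuous.div ?_ (hcc.sub continuous_const) (circ_sub_self_ne h0))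
      have : deriv (fun θ => circ c R θ - (c : ℂ)) = fun θ => Complex.I * (circ c R θ - (c : ℂ)) :=
        funext fun θ => deriv_circ_sub _ θ
      rw [this]
      exact continuous_const.mul (hcc.sub continuous_const)
  · intro z hz
    rw [regLEq hLOG h0 h1 _ contDiff_const (fun θ => rfl) (fun _ => hz)]
    simp
  · intro z hz
    unfold regInt
    have h2 : ∀ θ : ℝ, (Real.log ‖circ c R θ - (c : ℂ)‖ * (deriv (fun _ : ℝ => z) θ / z).im -
        Real.log ‖z‖ * (deriv (fun θ => circ c R θ - (c : ℂ)) θ /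
          (circ c R θ - (c : ℂ))).im) = - Real.log ‖z‖ := by
      intro θ
      rw [deriv_circ_sub, mul_div_assoc, div_self (circ_sub_self_ne h0 θ), mul_one, deriv_const,
        zero_div, Complex.zero_im, mul_zero, Complex.I_im, mul_one, zero_sub]
    simp_rw [h2]
    rw [intervalIntegral.integral_const, smul_eq_mul, sub_zero]
    ring

end MP743d1e.Hy
end
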