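import Pool.Agent.Lib.MP_743d1e_nt.HY.Defs

/-!
# Exact statements of the modules of block HY (uniform theorem for hyperelliptic curves)

`K` is the function field of `h + ε / h = e + T(x)`, `T = lam * ∏ (x - s i) ^ (w i)`. The symbols
are `{(x - s i) / (x - s 0), h}`, the loops are the lifts of the circles around the `s k` to the
branch with `h` close to `T`.
-/

set_option autoImplicit false

namespace MP743d1e.Hy

open scoped BigOperators
open Polynomial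

/-- The polynomial `e + T(X)`. -/
noncomputable def Dat.U {k : ℕ} (D : Dat k) (k₀ : Type) [Field k₀] (lam : ℤ) : k₀[X] :=
  C (D.e : k₀) + C (lam : k₀) * ∏ i, (X - C (D.s i : k₀)) ^ D.w i

/-- The polynomial of the curve; the outer variable is `h`, the inner one is `x`. -/
noncomputable def Dat.poly {k : ℕ} (D : Dat k) (k₀ : Type) [Field k₀] (lam : ℤ) : k₀[X][X] :=
  X ^ 2 - C (D.U k₀ lam) * X + C (C (D.ε : k₀))

/-- INT. `12 * {(x - s i) / (x - s 0), h}` has trivial tame symbol at every discrete valuation.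

Proof. `12 • sym u hh = sym u (hh ^ 12)`; by `tame_sym_eq_zero` one has to show that the tame unit
of `u` and `hh ^ 12` is a one-unit (`IsOne`). Use the predicates `Integ.NN`, `Integ.Pos` of
`Integ.lean` (`import Pool.Agent.Lib.MP_743d1e_nt.Integ`). (a) If `x` is not integral (`¬ NN v x`)
then `u - 1 = (s 0 - s i) / (x - s 0)` is `Pos`, so `u` is a one-unit, `Integ.isOne_tame_left`.
(b) If `NN v x`, then `T` is `NN`; `h` is `NN`: otherwise `h⁻¹` is `Pos` and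
`1 = (e + T) h⁻¹ - ε h⁻¹ ^ 2` would be `Pos`; likewise `ε h⁻¹` is `NN` since
`ε h⁻¹ = e + T - h`. So `ord hh = 0`, the tame unit is `(hh ^ 12) ^ (- ord u)`, and if `ord u ≠ 0`
then `x - s i` or `x - s 0` is `Pos`, hence `T` is `Pos`, hence `h ^ 2 - e h + ε = h T` is `Pos`;
`h ^ 12 - 1` is a multiple of `h ^ 2 - e h + ε` by an integral polynomial in `h` if `|e| ≤ 1`, and
of `h - 1` (`e = 2`; `(h - 1) ^ 2 = h T` gives `Pos (h - 1)`), `h + 1` (`e = -2`). So `hh ^ 12` is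
a one-unit. -/
def SpecINT : Prop :=
  ∀ (K : Type) [Field K] [Algebra ℚ K] {g : ℕ} (D : Dat (g + 1)) (lam : ℤ) (x h : K),
    IsHyp ℚ K D lam x h → ∀ (u hh : Kˣ) (i : Fin (g + 1)),
      (u : K) * (x - (D.s 0 : K)) = x - (D.s i : K) → (hh : K) = h →
        ∀ v : DVal K, tame v (12 • sym u hh) = 0

/-- NOR. `X ^ 2 - (e + T) * X + ε` has no root in `k₀(x)`.

Proof. If `a ^ 2 - U a b + ε b ^ 2 = 0` then `a / b` in the fraction field is integral over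
`k₀[X]`, so `a = p b` and `p (U - p) = ε` is a nonzero constant, so `p` is constant, so `U` is
constant; but `U` has degree `N ≥ 1`. -/
def SpecNOR : Prop :=
  ∀ (k₀ : Type) [Field k₀] {k : ℕ} (D : Dat (k + 1)) (lam : ℤ), (lam : k₀) ≠ 0 →
    ∀ a b : k₀[X], b ≠ 0 → a ^ 2 - D.U k₀ lam * a * b + C (D.ε : k₀) * b ^ 2 ≠ 0

/-- DIV. The kernel of the evaluation.

Proof. `D.poly` is monic of degree 2 in the outer variable: write `S = D.poly * Q + C a * X + C b`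
(`Polynomial.modByMonic`); if `a ≠ 0`, `B = - b(A) / a(A)` gives `b ^ 2 + U b a + ε a ^ 2 = 0` after
evaluation at the transcendental `A`, against NOR (with `-b`); so `a = 0`, `b = 0`. -/
def SpecDIV : Prop :=
  ∀ (k₀ L : Type) [Field k₀] [CharZero k₀] [Field L] [Algebra k₀ L] {k : ℕ} (D : Dat (k + 1))
    (lam : ℤ) (A B : L), lam ≠ 0 → Transcendental k₀ A →
      B ^ 2 + (D.ε : L) = ((D.e : L) + D.T lam A) * B →
        ∀ S : k₀[X][X], ev2 A B S = 0 ↔ D.poly k₀ lam ∣ S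

/-- IRR. Existence of the function field, which has degree 2 over `k₀(x)`.

Proof. Existence: `AdjoinRoot` of the irreducible polynomial `X ^ 2 - U X + ε` over `RatFunc k₀`
(degree 2, no root by NOR), `x = X`. Degree: `h` is not in `k₀(x)` by NOR, and it is a root of a
monic polynomial of degree 2. -/
def SpecIRR : Prop :=
  ∀ (k₀ : Type) [Field k₀] [CharZero k₀] {k : ℕ} (D : Dat (k + 1)) (lam : ℤ), lam ≠ 0 →
    (∃ (K : Type) (_ : Field K) (_ : Algebra k₀ K) (x h : K), IsHyp k₀ K D lam x h) ∧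
    ∀ (K : Type) [Field K] [Algebra k₀ K] (x h : K), IsHyp k₀ K D lam x h →
      FiniteDimensional (IntermediateField.adjoin k₀ {x}) K ∧
      Module.finrank (IntermediateField.adjoin k₀ {x}) K = 2

/-- CON. `ℚ` is algebraically closed in the function field over `ℚ`. (As `AlgCl.lean`.) -/
def SpecCON : Prop :=
  ∀ (K : Type) [Field K] [Algebra ℚ K] {k : ℕ} (D : Dat (k + 1)) (lam : ℤ) (x h : K), lam ≠ 0 →
    IsHyp ℚ K D lam x h → ConstQ K

/-- EMB. A closed path on the affine curve with transcendental abscissas is a `Loop`. (As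
`Emb.lean`, whose lemma `Emb.lift_aux` can be used, with DIV.) -/
def SpecEMB : Prop :=
  ∀ (K : Type) [Field K] [Algebra ℚ K] {k : ℕ} (D : Dat (k + 1)) (lam : ℤ) (x h : K), lam ≠ 0 →
    IsHyp ℚ K D lam x h →
    ∀ A B : ℝ → ℂ, ContDiff ℝ 1 A → ContDiff ℝ 1 B → (∀ θ, A (θ + 2 * Real.pi) = A θ) →
      (∀ θ, B (θ + 2 * Real.pi) = B θ) → (∀ θ, Transcendental ℚ (A θ)) →
      (∀ θ, B θ ^ 2 + (D.ε : ℂ) = ((D.e : ℂ) + D.T lam (A θ)) * B θ) →
      ∃ γ : Loop K, ∀ θ, γ.ev θ x = A θ ∧ γ.ev θ h = B θ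

/-- HG. The genus of a hyperelliptic function field.

Proof. Let `δ x = 1` (`specDer`), `specKae`: the regular differentials are the `f` with `Reg δ f`.
CLAIM: these are the `p(x) / y`, `deg p < g`. (1) Let `f = a + c / y`, `a, c ∈ ℂ(x)`, be regular.
`SpecTrace` (second part): `2 a = Tr f = 0`. `y` is integral over every `V ∋ x`, so `y f` satisfies
`RegD δ V` for these `V`, and `2 c = Tr (y f) = p(x)` is a polynomial (`SpecTrace`, first part).
With `t = 1 / x`, `δ' = - x ^ 2 δ` (`δ' t = 1`), `f' = - x ^ 2 f`, `y' = y / x ^ (g + 1)`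
(`y' ^ 2` is a polynomial in `t`, so `y' ∈ V` if `t ∈ V`) the first part of `SpecTrace` says that
`Tr (y' f') = - 2 c x ^ (2 - (g + 1))` is a polynomial in `t`: `deg c ≤ g - 1` (and `c = 0` if
`g = 0`). (2) `f = p(x) / y` is regular at `V`: if `x ∉ V`, `t = 1 / x`, `f = b * δ t` with
`b = - p(x) x ^ 2 / y = - (p(x) / x ^ (g - 1)) / (y / x ^ (g + 1))`, in `V` because
`(y / x ^ (g + 1)) ^ 2` is a unit of `V`. If `x ∈ V` and `y⁻¹ ∈ V`: `f = (p(x) / y) * δ x`. If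
`x ∈ V` and `y⁻¹ ∉ V`: `F(x) = y ^ 2` is in the maximal ideal, so `F'(x)` is a unit of `V`
(`a F + b F' = 1`), and `f = (2 p(x) / F'(x)) * δ y`. The space has the basis `x ^ i / y`,
`i < g`. -/
def SpecHG : Prop :=
  ∀ (K : Type) [Field K] [Algebra ℂ K] (x y : K) (F : ℂ[X]) (g : ℕ), Transcendental ℂ x →
    IntermediateField.adjoin ℂ {x, y} = ⊤ → y ^ 2 = aeval x F → F.natDegree = 2 * g + 2 →
    (∀ z, F.eval z = 0 → F.derivative.eval z ≠ 0) → HasGenus K g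

/-- SQF. The hyperelliptic curve is smooth: `(e + T) ^ 2 - 4 ε = P ^ 2 * F` with `F` squarefree of
degree `2 k + 2`.

Proof. KEY: if `z ∈ ℂ`, `T(z) ≠ 0` and `T'(z) = 0` then `|T(z)| ≥ |lam| (t / 2) ^ N > 4` and
`T(z)` is real. Indeed `∑ w j / (z - s j) = 0`; the imaginary part is `- Im z * ∑ w j / |z - s j|^2`
so `z` is real. If `|z - s j| ≥ t / 2` for all `j` this is clear. Otherwise `|z - s i| < t / 2` for
one `i`; put `p = s i ± t / 2` on the same side as `z`. Then `|p - s j| ≥ t / 2` for all `j`,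
`(p - s j) / (z - s j) > 0` for all `j`, and `log u ≤ u - 1` gives
`log |p - s j| ≤ log |z - s j| + (p - z) / (z - s j)`; multiply by `w j` and sum:
`log |T(p)| ≤ log |T(z)|`. Now, with `U = e + T`: case `ε = 1`, `e = ± 2`:
`U ^ 2 - 4 = T (T + 2 e)`, `P = ∏_{w i = 2} (X - s i)`, `F = lam ∏_{w i = 1} (X - s i) (T + 2 e)`.
Other cases: all `w i = 1`, `P = 1`, `F = U ^ 2 - 4 ε`: `F(z) = F'(z) = 2 U(z) T'(z) = 0` gives
`U(z) ≠ 0`, `T'(z) = 0`, `T(z) ≠ 0` (a zero of `T` is simple), `T(z) = - e ± 2 √ε`, so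
`|T(z)| ≤ 4`, against KEY. -/
def SpecSQF : Prop :=
  ∀ {k : ℕ} (D : Dat (k + 1)) (lam : ℤ) (t : ℝ), 0 < t → D.Sep t →
    4 < |(lam : ℝ)| * (t / 2) ^ D.N →
      ∃ P F : ℂ[X], P ≠ 0 ∧ (D.U ℂ lam) ^ 2 - C (4 * (D.ε : ℂ)) = P ^ 2 * F ∧
        F.natDegree = 2 * k + 2 ∧ ∀ z, F.eval z = 0 → F.derivative.eval z ≠ 0

/-- LOG. The regulator integral of a function with a periodic logarithm.

Proof. `log ‖exp ℓ‖ = Re ℓ`, `(deriv (exp ℓ) / exp ℓ) = ℓ'`, and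
`d/dθ (Im ℓ * log ‖g‖) = Im ℓ' * log ‖g‖ + Im ℓ * Re (g' / g)` has integral zero. -/
def SpecLOG : Prop :=
  ∀ ℓ g : ℝ → ℂ, ContDiff ℝ 1 ℓ → ContDiff ℝ 1 g → (∀ θ, ℓ (θ + 2 * Real.pi) = ℓ θ) →
    (∀ θ, g (θ + 2 * Real.pi) = g θ) → (∀ θ, g θ ≠ 0) →
      regInt (fun θ => Complex.exp (ℓ θ)) g =
        ∫ θ in (0 : ℝ)..(2 * Real.pi), (ℓ θ * (deriv g θ / g θ)).im

/-- CIR. The regulator integrals of linear functions on a circle (`circ c R` is Mathlib's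
`circleMap c R`).

Proof. For `a` outside the circle, `z ↦ log (z - a)` has the holomorphic branch
`ℓ(z) = Complex.log (c - a) + Complex.log (1 + (z - c) / (c - a))` on a neighbourhood of the closed
disc. With LOG the first integral is the imaginary part of the circle integral of `ℓ(z) / (z - b)`,
zero by Cauchy, and the second is the real part of the integral of `ℓ` over `θ`, which is
`2 π Re ℓ(c)` by the mean value property (`ℓ(z) / (z - c)`, Cauchy's integral formula). The last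
two are winding numbers. -/
def SpecCIR : Prop :=
  ∀ (c a b : ℤ) (R : ℝ), 0 < R → R < |(c : ℝ) - a| →
    (R < |(c : ℝ) - b| →
      regInt (fun θ => circ c R θ - (a : ℂ)) (fun θ => circ c R θ - (b : ℂ)) = 0) ∧
    regInt (fun θ => circ c R θ - (a : ℂ)) (fun θ => circ c R θ - (c : ℂ)) =
      2 * Real.pi * Real.log |(c : ℝ) - a| ∧
    (∀ z : ℂ, z ≠ 0 → regInt (fun θ => circ c R θ - (a : ℂ)) (fun _ => z) = 0) ∧
    (∀ z : ℂ, z ≠ 0 → regInt (fun θ => circ c R θ - (c : ℂ)) (fun _ => z) =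
      -(2 * Real.pi * Real.log ‖z‖))

/-- PTH. The branch `h ≈ T` of the curve over a circle.

Proof. `U = e + T`, `|U| ≥ M - 2`, `σ = exp (Complex.log (1 - 4 ε / U ^ 2) / 2)`,
`H = U (1 + σ) / 2`, `ℓ = Complex.log (1 + e / T) + Complex.log ((1 + σ) / 2)`. Bounds:
`|e / T| ≤ 2 / M`, `|σ - 1| ≤ 4 / (M - 2) ^ 2` (`σ ^ 2 - 1 = (σ - 1) (σ + 1)` and `Re σ ≥ 0`), and
`‖log (1 + z)‖ ≤ 3 / 2 * ‖z‖` for `‖z‖ ≤ 1 / 2` (`Complex.norm_log_one_add_half_le_self`). -/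
def SpecPTH : Prop :=
  ∀ {k : ℕ} (D : Dat (k + 1)) (lam c : ℤ) (R M : ℝ), 16 ≤ M →
    (∀ θ, M ≤ ‖D.T lam (circ c R θ)‖) → ∃ H ℓ : ℝ → ℂ, ContDiff ℝ 1 H ∧ ContDiff ℝ 1 ℓ ∧
      (∀ θ, H (θ + 2 * Real.pi) = H θ) ∧ (∀ θ, ℓ (θ + 2 * Real.pi) = ℓ θ) ∧
      (∀ θ, H θ = D.T lam (circ c R θ) * Complex.exp (ℓ θ)) ∧
      (∀ θ, H θ ^ 2 + (D.ε : ℂ) = ((D.e : ℂ) + D.T lam (circ c R θ)) * H θ) ∧
      ∀ θ, ‖ℓ θ‖ ≤ 4 / M

/-- RAD. A radius such that all circles avoid the algebraic numbers. (As `Trans.lean`.) -/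
def SpecRAD : Prop :=
  ∀ t : ℝ, 0 < t → ∃ R : ℝ, t / 4 < R ∧ R < t / 2 ∧
    ∀ (c : ℤ) (θ : ℝ), Transcendental ℚ (circ c R θ)

/-- REG. The regulators of the symbols `{u i, h}`.

Proof. `RAD` gives `R`; `M = |lam| (t / 4) ^ N`; `γ k` is the loop of `EMB` for `A = circ c R`,
`c = s k.succ`, and `B = H` of `PTH`. In `K2 K`: `sym u h = sym u T' + sym u q`, `q = h / T`,
`T' = T(x)`, where `sym u T'` is expanded by bilinearity into the `sym (x - s a) (x - s b)` and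
`sym (x - s a) lam`; CIR gives exactly `2 π A i k` (with `reg (sym a a) = 0`). The rest is
`regInt (u) (exp ℓ) = - ∫ Im (ℓ * u' / u)` (LOG and antisymmetry of `regInt`), at most
`2 π * (4 / M) * 2` since `|u' / u| ≤ R / |A - s i| + R / |A - s 0| ≤ 2`. -/
def SpecREG : Prop :=
  ∀ (K : Type) [Field K] [Algebra ℚ K] {g : ℕ} (D : Dat (g + 1)) (lam : ℤ) (x h : K) (t : ℝ),
    IsHyp ℚ K D lam x h → 0 < t → D.Sep t → 16 ≤ |(lam : ℝ)| * (t / 4) ^ D.N →
      ∀ (u : Fin g → Kˣ) (hh : Kˣ),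
        (∀ i, (u i : K) * (x - (D.s 0 : K)) = x - (D.s i.succ : K)) → (hh : K) = h →
          ∃ γ : Fin g → Loop K, ∀ i k, |reg (γ k) (sym (u i) hh) - 2 * Real.pi * D.A lam i k| ≤
            16 * Real.pi / (|(lam : ℝ)| * (t / 4) ^ D.N)

/-- DET. The determinant of a matrix close to `2 π A`.

Proof. Put `ℓ = log (|lam| t ^ N)`, and for `z : Fin (g + 1) → ℝ` with `∑ z = 0`
`R_k(z) = z_k (log |lam| + ∑_j w_j log |s_k - s_j|) - w_k ∑_j z_j log |s_k - s_j|`. Then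
`∑ R_k = 0` and, with `⟨z, z'⟩ = ∑ z_k z'_k / w_k`,
`⟨z, R(z)⟩ = log |lam| ∑ z_k ^ 2 / w_k
  + 1/2 ∑_{k, j} log |s_k - s_j| w_k w_j (z_k / w_k - z_j / w_j) ^ 2 ≥ ℓ ⟨z, z⟩`
(for `k ≠ j` one has `log |s_k - s_j| ≥ log t`). For `v : Fin g → ℝ` let `z(v) = (-∑ v, v)`; then
`z(v A) = - R(z(v))`. So `G(v) = ⟨z(v), z(v)⟩` satisfies `G(v A) ≥ ℓ ^ 2 G(v)` (Cauchy-Schwarz),
and for the error matrix `E`, `√G(v E) ≤ 2 (g + 1) ^ 2 η √G(v)` (`G(v) ≥ ∑ v_i ^ 2 / 2`,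
`G(v) ≤ (g + 1) ∑ v_i ^ 2`). So `v ↦ v M` expands the norm `√G` by
`κ = 2 π ℓ - 2 (g + 1) ^ 2 η`; compare the volumes of the ball of this norm and of its preimage
(as in `W/DETW.lean`): `κ ^ g ≤ |det M|`. -/
def SpecDET : Prop :=
  ∀ {g : ℕ} (D : Dat (g + 1)) (lam : ℤ) (t : ℝ), lam ≠ 0 → 0 < t → D.Sep t →
    0 < Real.log (|(lam : ℝ)| * t ^ D.N) →
    ∀ (M : Matrix (Fin g) (Fin g) ℝ) (η : ℝ), (∀ i k, |M i k - 2 * Real.pi * D.A lam i k| ≤ η) →
      0 < 2 * Real.pi * Real.log (|(lam : ℝ)| * t ^ D.N) - 2 * ((g : ℝ) + 1) ^ 2 * η →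
      (2 * Real.pi * Real.log (|(lam : ℝ)| * t ^ D.N) - 2 * ((g : ℝ) + 1) ^ 2 * η) ^ g ≤ |M.det|

end MP743d1e.Hy
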