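import Pool.Agent.Lib.MP_743d1e_nt.HY.Defs
import Pool.Agent.Lib.MP_743d1e_nt.HY.Spec
import Pool.Agent.Lib.MP_743d1e_nt.Kae
import Pool.Agent.Lib.MP_743d1e_nt.Const
import Pool.Agent.Lib.MP_743d1e_nt.Span

section
/-!
# The statement for the hyperelliptic curves
-/
set_option autoImplicit false

namespace MP743d1e.Hy

open scoped BigOperators

section Units

variable (K : Type) [Field K] [Algebra ℚ K] {k : ℕ}

/-- The group generated by the constants, the functions `x - s i` and `h`. -/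
def unitsH (D : Dat k) (x h : K) : Subgroup Kˣ :=
  Subgroup.closure ({u | ∃ c : ℚ, (u : K) = algebraMap ℚ K c} ∪
    {u | ∃ i, (u : K) = x - (D.s i : K)} ∪ {u | (u : K) = h})

/-- The subgroup of `K2 K` generated by the symbols of elements of `unitsH`. -/
def symH (D : Dat k) (x h : K) : AddSubgroup (K2 K) :=
  AddSubgroup.closure {z | ∃ u ∈ unitsH K D x h, ∃ w ∈ unitsH K D x h, z = sym u w}

end Units

/-- The conclusion for the curve `h + ε / h = e + lam * ∏ (x - s i) ^ (w i)` whose roots have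
mutual distances at least `t`: it exists over `ℚ` and over `ℂ`, `ℚ` is algebraically closed in
its function field over `ℚ`; the `g` elements `12 {(x - s i) / (x - s 0), h}` of `K2` are
unramified, every unramified element of `symH` has a positive multiple in their span, and there
are `g` loops such that the regulators are equal to `24 * π * A` up to an error at most
`192 * π / (|lam| * (t / 4) ^ N)`, with a determinant of absolute value at least
`(72 * log (|lam| * t ^ N)) ^ g`; over `ℂ` the genus is `g` and the degree over `ℂ(x)` is `2`. -/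
def ConclH {g : ℕ} (D : Dat (g + 1)) (lam : ℤ) (t : ℝ) : Prop :=
  (∃ (K : Type) (_ : Field K) (_ : Algebra ℚ K) (x h : K), IsHyp ℚ K D lam x h) ∧
  (∃ (K : Type) (_ : Field K) (_ : Algebra ℂ K) (x h : K), IsHyp ℂ K D lam x h) ∧
  (∀ (K : Type) [Field K] [Algebra ℚ K] (x h : K), IsHyp ℚ K D lam x h →
    ConstQ K ∧ ∃ (u : Fin g → Kˣ) (hh : Kˣ) (γ : Fin g → Loop K),
      (∀ i, (u i : K) * (x - (D.s 0 : K)) = x - (D.s i.succ : K)) ∧ (hh : K) = h ∧
      (∀ i, Unramified (12 • sym (u i) hh)) ∧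
      (∀ β ∈ symH K D x h, Unramified β → ∃ n : ℕ, 0 < n ∧
        n • β ∈ AddSubgroup.closure (Set.range fun i => 12 • sym (u i) hh)) ∧
      (∀ i k, |reg (γ k) (12 • sym (u i) hh) - 24 * Real.pi * D.A lam i k| ≤
        192 * Real.pi / (|(lam : ℝ)| * (t / 4) ^ D.N)) ∧
      (72 * Real.log (|(lam : ℝ)| * t ^ D.N)) ^ g ≤
        |(Matrix.of fun i k => reg (γ k) (12 • sym (u i) hh)).det|) ∧
  (∀ (K : Type) [Field K] [Algebra ℂ K] (x h : K), IsHyp ℂ K D lam x h →
    HasGenus K g ∧ Module.finrank (IntermediateField.adjoin ℂ {x}) K = 2)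

end MP743d1e.Hy
end

section
/-!
# LOG: the regulator integral of a function with a periodic logarithm
-/
set_option autoImplicit false

namespace MP743d1e.Hy

theorem LOG_hasDerivAt (g : ℝ → ℂ) (g' : ℂ) (θ : ℝ) (hg : HasDerivAt g g' θ) (h0 : g θ ≠ 0) :
    HasDerivAt (fun θ => Real.log ‖g θ‖) (g' / g θ).re θ := by
  have hre : HasDerivAt (fun θ => (g θ).re) g'.re θ :=
    (Complex.reCLM.hasFDerivAt.comp_hasDerivAt θ hg)
  have him : HasDerivAt (fun θ => (g θ).im) g'.im θ :=
    (Complex.imCLM.hasFDerivAt.comp_hasDerivAt θ hg)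
  have hn : HasDerivAt (fun θ => (g θ).re * (g θ).re + (g θ).im * (g θ).im)
      ((g'.re * (g θ).re + (g θ).re * g'.re) + (g'.im * (g θ).im + (g θ).im * g'.im)) θ :=
    (hre.mul hre).add (him.mul him)
  have hpos : (g θ).re * (g θ).re + (g θ).im * (g θ).im ≠ 0 := by
    have := (Complex.normSq_pos.2 h0).ne'
    simpa [Complex.normSq_apply] using this
  have hlog := (hn.log hpos).div_const 2
  have hfun : (fun θ => Real.log ‖g θ‖) =
      fun θ => Real.log ((g θ).re * (g θ).re + (g θ).im * (g θ).im) / 2 := by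
    funext s
    rw [← Complex.normSq_apply, Complex.normSq_eq_norm_sq, Real.log_pow]
    push_cast
    ring
  rw [hfun]
  refine hlog.congr_deriv ?_
  rw [Complex.div_re, Complex.normSq_apply]
  field_simp
  ring

theorem specLOG : SpecLOG := by
  intro ℓ g hℓ hg hpℓ hpg h0
  have hℓd : ∀ θ, HasDerivAt ℓ (deriv ℓ θ) θ := fun θ =>
    ((hℓ.differentiable (by norm_num)) θ).hasDerivAt
  have hgd : ∀ θ, HasDerivAt g (deriv g θ) θ := fun θ =>
    ((hg.differentiable (by norm_num)) θ).hasDerivAt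
  have hℓc : Continuous (deriv ℓ) := hℓ.continuous_deriv (by norm_num)
  have hgc : Continuous (deriv g) := hg.continuous_deriv (by norm_num)
  have hq : Continuous (fun θ => deriv g θ / g θ) := hgc.div hg.continuous h0
  have hlg : Continuous (fun θ => Real.log ‖g θ‖) :=
    Continuous.log hg.continuous.norm (fun θ => norm_ne_zero_iff.2 (h0 θ))
  -- the derivative of `Im ℓ * log ‖g‖`
  have hF : ∀ θ, HasDerivAt (fun θ => (ℓ θ).im * Real.log ‖g θ‖)
      ((deriv ℓ θ).im * Real.log ‖g θ‖ + (ℓ θ).im * (deriv g θ / g θ).re) θ := by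
    intro θ
    have h1 : HasDerivAt (fun θ => (ℓ θ).im) (deriv ℓ θ).im θ :=
      (Complex.imCLM.hasFDerivAt.comp_hasDerivAt θ (hℓd θ))
    exact h1.mul (LOG_hasDerivAt g _ θ (hgd θ) (h0 θ))
  have hcont : Continuous (fun θ => (deriv ℓ θ).im * Real.log ‖g θ‖ +
      (ℓ θ).im * (deriv g θ / g θ).re) :=
    ((Complex.continuous_im.comp hℓc).mul hlg).add
      ((Complex.continuous_im.comp hℓ.continuous).mul (Complex.continuous_re.comp hq))
  have hint : ∫ θ in (0 : ℝ)..(2 * Real.pi), ((deriv ℓ θ).im * Real.log ‖g θ‖ +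
      (ℓ θ).im * (deriv g θ / g θ).re) = 0 := by
    rw [intervalIntegral.integral_eq_sub_of_hasDerivAt (fun θ _ => hF θ)
      (hcont.intervalIntegrable _ _)]
    have e1 := hpℓ 0
    have e2 := hpg 0
    rw [zero_add] at e1 e2
    rw [e1, e2, sub_self]
  have hexp : ∀ θ, deriv (fun θ => Complex.exp (ℓ θ)) θ / Complex.exp (ℓ θ) = deriv ℓ θ := by
    intro θ
    rw [((hℓd θ).cexp).deriv]
    field_simp
  unfold regInt
  have hc1 : Continuous (fun θ => Real.log ‖Complex.exp (ℓ θ)‖ * (deriv g θ / g θ).im -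
      Real.log ‖g θ‖ * (deriv (fun θ => Complex.exp (ℓ θ)) θ / Complex.exp (ℓ θ)).im) := by
    simp only [hexp, Complex.norm_exp, Real.log_exp]
    exact ((Complex.continuous_re.comp hℓ.continuous).mul (Complex.continuous_im.comp hq)).sub
      (hlg.mul (Complex.continuous_im.comp hℓc))
  have hsum : ∫ θ in (0 : ℝ)..(2 * Real.pi), (ℓ θ * (deriv g θ / g θ)).im =
      ∫ θ in (0 : ℝ)..(2 * Real.pi), ((Real.log ‖Complex.exp (ℓ θ)‖ * (deriv g θ / g θ).im -
      Real.log ‖g θ‖ * (deriv (fun θ => Complex.exp (ℓ θ)) θ / Complex.exp (ℓ θ)).im) +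
      ((deriv ℓ θ).im * Real.log ‖g θ‖ + (ℓ θ).im * (deriv g θ / g θ).re)) := by
    refine intervalIntegral.integral_congr fun θ _ => ?_
    simp only [hexp, Complex.norm_exp, Real.log_exp, Complex.mul_im]
    ring
  rw [hsum, intervalIntegral.integral_add (hc1.intervalIntegrable _ _)
    (hcont.intervalIntegrable _ _), hint, add_zero]

end MP743d1e.Hy
end

section
/-!
# PTH: the branch `h ≈ T` of the curve over a circle
-/
set_option autoImplicit false

namespace MP743d1e.Hy

open scoped BigOperators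

namespace PTH

theorem contDiff_log {f : ℝ → ℂ} (hf : ContDiff ℝ 1 f) (h : ∀ θ, ‖f θ‖ < 1) :
    ContDiff ℝ 1 (fun θ => Complex.log (1 + f θ)) := by
  rw [contDiff_iff_contDiffAt]
  intro θ
  have h2 : ContDiffAt ℝ 1 Complex.log (1 + f θ) :=
    (Complex.contDiffAt_log (Complex.mem_slitPlane_of_norm_lt_one (h θ))).restrict_scalars ℝ
  have h3 : ContDiffAt ℝ 1 (fun θ => 1 + f θ) θ := contDiffAt_const.add hf.contDiffAt
  exact ContDiffAt.comp (g := Complex.log) (f := fun θ => 1 + f θ) θ h2 h3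

/-- The abstract form: `T` is a smooth periodic function with large values. -/
theorem main {T : ℝ → ℂ} {e ε : ℂ} {M : ℝ} (hM : 16 ≤ M) (hTc : ContDiff ℝ 1 T)
    (hTp : ∀ θ, T (θ + 2 * Real.pi) = T θ) (hT : ∀ θ, M ≤ ‖T θ‖) (he : ‖e‖ ≤ 2) (hε : ‖ε‖ ≤ 1) :
    ∃ H ℓ : ℝ → ℂ, ContDiff ℝ 1 H ∧ ContDiff ℝ 1 ℓ ∧
      (∀ θ, H (θ + 2 * Real.pi) = H θ) ∧ (∀ θ, ℓ (θ + 2 * Real.pi) = ℓ θ) ∧
      (∀ θ, H θ = T θ * Complex.exp (ℓ θ)) ∧
      (∀ θ, H θ ^ 2 + ε = (e + T θ) * H θ) ∧ ∀ θ, ‖ℓ θ‖ ≤ 4 / M := by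
  have hM0 : 0 < M := by linarith
  have hT0 : ∀ θ, T θ ≠ 0 := by
    intro θ h0
    have := hT θ
    rw [h0, norm_zero] at this
    linarith
  have hTpos : ∀ θ, 0 < ‖T θ‖ := fun θ => lt_of_lt_of_le hM0 (hT θ)
  have hU : ∀ θ, M - 2 ≤ ‖e + T θ‖ := by
    intro θ
    have h1 := norm_sub_norm_le (T θ) (-e)
    rw [sub_neg_eq_add, norm_neg, add_comm (T θ)] at h1
    have := hT θ
    linarith
  have hU0 : ∀ θ, e + T θ ≠ 0 := by
    intro θ h0
    have := hU θ
    rw [h0, norm_zero] at this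
    linarith
  -- the functions
  let a : ℝ → ℂ := fun θ => e / T θ
  let w : ℝ → ℂ := fun θ => -(4 * ε / (e + T θ) ^ 2)
  let σ : ℝ → ℂ := fun θ => Complex.exp (Complex.log (1 + w θ) / 2)
  let b : ℝ → ℂ := fun θ => (σ θ - 1) / 2
  have ha : ∀ θ, ‖a θ‖ ≤ 2 / M := by
    intro θ
    show ‖e / T θ‖ ≤ 2 / M
    rw [norm_div]
    exact div_le_div₀ (by norm_num) he hM0 (hT θ)
  have hw : ∀ θ, ‖w θ‖ ≤ 4 / (M - 2) ^ 2 := by
    intro θ
    show ‖-(4 * ε / (e + T θ) ^ 2)‖ ≤ 4 / (M - 2) ^ 2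
    rw [norm_neg, norm_div, norm_mul, norm_pow, Complex.norm_ofNat]
    refine div_le_div₀ (by norm_num) (by linarith) (by nlinarith) ?_
    exact pow_le_pow_left₀ (by linarith) (hU θ) 2
  have hMle : 4 / (M - 2) ^ 2 ≤ 1 / 4 := by
    rw [div_le_div_iff₀ (by nlinarith) (by norm_num)]
    nlinarith
  have haM : 2 / M ≤ 1 / 8 := by
    rw [div_le_div_iff₀ hM0 (by norm_num)]
    linarith
  have hlogw : ∀ θ, ‖Complex.log (1 + w θ)‖ ≤ 3 / 2 * ‖w θ‖ := fun θ =>
    Complex.norm_log_one_add_half_le_self (by have := hw θ; linarith)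
  have hσ : ∀ θ, ‖σ θ - 1‖ ≤ 6 / (M - 2) ^ 2 := by
    intro θ
    have h1 := hlogw θ
    have h2 := hw θ
    have h3 : ‖Complex.log (1 + w θ) / 2‖ ≤ 3 / (M - 2) ^ 2 := by
      rw [norm_div, Complex.norm_ofNat]
      have : 3 / (M - 2) ^ 2 = 3 / 4 * (4 / (M - 2) ^ 2) := by ring
      rw [this]
      linarith
    have h4 : 3 / (M - 2) ^ 2 ≤ 1 := by
      have : 3 / (M - 2) ^ 2 = 3 / 4 * (4 / (M - 2) ^ 2) := by ring
      rw [this]
      linarith
    have h5 := Complex.norm_exp_sub_one_le (h3.trans h4)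
    refine h5.trans ?_
    have : 6 / (M - 2) ^ 2 = 2 * (3 / (M - 2) ^ 2) := by ring
    rw [this]
    linarith
  have hb : ∀ θ, ‖b θ‖ ≤ 3 / (M - 2) ^ 2 := by
    intro θ
    show ‖(σ θ - 1) / 2‖ ≤ 3 / (M - 2) ^ 2
    rw [norm_div, Complex.norm_ofNat]
    have h1 := hσ θ
    have : 3 / (M - 2) ^ 2 = 6 / (M - 2) ^ 2 / 2 := by ring
    rw [this]
    linarith
  have hb' : 3 / (M - 2) ^ 2 ≤ 1 / 4 := by
    rw [div_le_div_iff₀ (by nlinarith) (by norm_num)]
    nlinarith
  have hσsq : ∀ θ, σ θ ^ 2 = 1 + w θ := by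
    intro θ
    show Complex.exp (Complex.log (1 + w θ) / 2) ^ 2 = 1 + w θ
    rw [← Complex.exp_nat_mul]
    have h0 : 1 + w θ ≠ 0 := by
      have h1 := hw θ
      exact Complex.slitPlane_ne_zero (Complex.mem_slitPlane_of_norm_lt_one (by linarith))
    have : ((2 : ℕ) : ℂ) * (Complex.log (1 + w θ) / 2) = Complex.log (1 + w θ) := by
      push_cast
      ring
    rw [this, Complex.exp_log h0]
  have hUc : ContDiff ℝ 1 (fun θ => e + T θ) := contDiff_const.add hTc
  have hac : ContDiff ℝ 1 a := by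
    have h1 : a = fun θ => e * (T θ)⁻¹ := funext fun θ => div_eq_mul_inv _ _
    rw [h1]
    exact contDiff_const.mul (hTc.inv hT0)
  have hwc : ContDiff ℝ 1 w := by
    have h1 : w = fun θ => -(4 * ε * ((e + T θ) ^ 2)⁻¹) := by
      funext θ
      show -(4 * ε / (e + T θ) ^ 2) = -(4 * ε * ((e + T θ) ^ 2)⁻¹)
      rw [div_eq_mul_inv]
    rw [h1]
    exact (contDiff_const.mul ((hUc.pow 2).inv fun θ => pow_ne_zero 2 (hU0 θ))).neg
  have hσc : ContDiff ℝ 1 σ := by
    have h1 : ContDiff ℝ 1 (fun θ => Complex.log (1 + w θ) / 2) :=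
      (contDiff_log hwc fun θ => by have := hw θ; linarith).div_const 2
    exact h1.cexp
  have hbc : ContDiff ℝ 1 b := (hσc.sub contDiff_const).div_const 2
  have hap : ∀ θ, a (θ + 2 * Real.pi) = a θ := by
    intro θ
    show e / T (θ + 2 * Real.pi) = e / T θ
    rw [hTp]
  have hwp : ∀ θ, w (θ + 2 * Real.pi) = w θ := by
    intro θ
    show -(4 * ε / (e + T (θ + 2 * Real.pi)) ^ 2) = -(4 * ε / (e + T θ) ^ 2)
    rw [hTp]
  have hσp : ∀ θ, σ (θ + 2 * Real.pi) = σ θ := by
    intro θ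
    show Complex.exp (Complex.log (1 + w (θ + 2 * Real.pi)) / 2) =
      Complex.exp (Complex.log (1 + w θ) / 2)
    rw [hwp]
  have hbp : ∀ θ, b (θ + 2 * Real.pi) = b θ := by
    intro θ
    show (σ (θ + 2 * Real.pi) - 1) / 2 = (σ θ - 1) / 2
    rw [hσp]
  refine ⟨fun θ => (e + T θ) * (1 + σ θ) / 2,
    fun θ => Complex.log (1 + a θ) + Complex.log (1 + b θ), ?_, ?_, ?_, ?_, ?_, ?_, ?_⟩
  · exact (hUc.mul (contDiff_const.add hσc)).div_const 2
  · exact (contDiff_log hac fun θ => by have := ha θ; linarith).add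
      (contDiff_log hbc fun θ => by have := hb θ; linarith)
  · intro θ
    simp only [hTp, hσp]
  · intro θ
    simp only [hap, hbp]
  · intro θ
    have h1 : 1 + a θ ≠ 0 := Complex.slitPlane_ne_zero
      (Complex.mem_slitPlane_of_norm_lt_one (by have := ha θ; linarith))
    have h2 : 1 + b θ ≠ 0 := Complex.slitPlane_ne_zero
      (Complex.mem_slitPlane_of_norm_lt_one (by have := hb θ; linarith))
    show (e + T θ) * (1 + σ θ) / 2 =
      T θ * Complex.exp (Complex.log (1 + a θ) + Complex.log (1 + b θ))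
    rw [Complex.exp_add, Complex.exp_log h1, Complex.exp_log h2]
    show (e + T θ) * (1 + σ θ) / 2 = T θ * ((1 + e / T θ) * (1 + (σ θ - 1) / 2))
    have := hT0 θ
    field_simp
    ring
  · intro θ
    show ((e + T θ) * (1 + σ θ) / 2) ^ 2 + ε = (e + T θ) * ((e + T θ) * (1 + σ θ) / 2)
    have h1 : (e + T θ) ^ 2 * (1 - σ θ ^ 2) = 4 * ε := by
      rw [hσsq]
      show (e + T θ) ^ 2 * (1 - (1 + -(4 * ε / (e + T θ) ^ 2))) = 4 * ε
      have := hU0 θ
      field_simp
      ring
    linear_combination -(1 / 4) * h1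
  · intro θ
    have h1 : ‖Complex.log (1 + a θ)‖ ≤ 3 / 2 * ‖a θ‖ :=
      Complex.norm_log_one_add_half_le_self (by have := ha θ; linarith)
    have h2 : ‖Complex.log (1 + b θ)‖ ≤ 3 / 2 * ‖b θ‖ :=
      Complex.norm_log_one_add_half_le_self (by have := hb θ; linarith)
    have h3 := norm_add_le (Complex.log (1 + a θ)) (Complex.log (1 + b θ))
    have h4 := ha θ
    have h5 := hb θ
    have h6 : 3 / (M - 2) ^ 2 ≤ 2 / 3 / M := by
      rw [div_le_div_iff₀ (by nlinarith) hM0]
      nlinarith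
    have h7 : 4 / M = 3 / 2 * (2 / M) + 3 / 2 * (2 / 3 / M) := by ring
    show ‖Complex.log (1 + a θ) + Complex.log (1 + b θ)‖ ≤ 4 / M
    rw [h7]
    linarith

end PTH

/-- PTH -/
theorem specPTH : SpecPTH := by
  intro k D lam c R M hM hT
  have hc : ContDiff ℝ 1 (circ c R) := Circ.contDiff_circ c R
  refine PTH.main (T := fun θ => D.T lam (circ c R θ)) hM ?_ ?_ hT ?_ ?_
  · unfold Dat.T
    refine contDiff_const.mul ?_
    exact contDiff_prod fun i _ => (hc.sub contDiff_const).pow _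
  · intro θ
    show D.T lam (circ c R (θ + 2 * Real.pi)) = D.T lam (circ c R θ)
    rw [Circ.circ_periodic]
  · rcases D.adm with ⟨-, h | h⟩ | ⟨-, ⟨-, h | h | h⟩ | ⟨-, h⟩⟩ <;> rw [h] <;> simp
  · rcases D.adm with ⟨h, -⟩ | ⟨-, ⟨h, -⟩ | ⟨h, -⟩⟩ <;> rw [h] <;> simp

end MP743d1e.Hy
end

section
/-!
# FIN: the final deduction
-/
set_option autoImplicit false

namespace MP743d1e.Hy

open scoped BigOperators
open Polynomial

/-- EXA. Every unramified element of `symH` has a positive multiple in the span of the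
`12 {(x - s i) / (x - s 0), h}`. -/
def SpecEXA : Prop :=
  ∀ (K : Type) [Field K] [Algebra ℚ K] {g : ℕ} (D : Dat (g + 1)) (lam : ℤ) (x h : K), lam ≠ 0 →
    IsHyp ℚ K D lam x h → ∀ (u : Fin g → Kˣ) (hh : Kˣ),
      (∀ i, (u i : K) * (x - (D.s 0 : K)) = x - (D.s i.succ : K)) → (hh : K) = h →
        ∀ β ∈ symH K D x h, Unramified β → ∃ n : ℕ, 0 < n ∧
          n • β ∈ AddSubgroup.closure (Set.range fun i => 12 • sym (u i) hh)

namespace FINM

theorem aeval_U {k₀ K : Type} [Field k₀] [Field K] [Algebra k₀ K] {k : ℕ} (D : Dat k) (lam : ℤ)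
    (x : K) : aeval x (D.U k₀ lam) = (D.e : K) + D.T lam x := by
  unfold Dat.U Dat.T
  simp

theorem h_ne {k₀ K : Type} [Field k₀] [Field K] [Algebra k₀ K] {k : ℕ} {D : Dat k} {lam : ℤ}
    {x h : K} (hC : IsHyp k₀ K D lam x h) : h ≠ 0 := by
  rintro rfl
  have h1 := hC.eqn
  rw [mul_zero, zero_pow two_ne_zero, zero_add] at h1
  rcases D.adm with ⟨h2, _⟩ | ⟨_, ⟨h2, _⟩ | ⟨h2, _⟩⟩ <;> simp [h2] at h1

theorem sub_ne {k₀ K : Type} [Field k₀] [Field K] [Algebra k₀ K] {k : ℕ} {D : Dat k} {lam : ℤ}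
    {x h : K} (hC : IsHyp k₀ K D lam x h) (a : Fin k) : x - (D.s a : K) ≠ 0 := by
  intro ha
  have hx : x = algebraMap k₀ K (D.s a : k₀) := by
    rw [map_intCast]
    exact sub_eq_zero.1 ha
  exact hC.transc (hx ▸ isAlgebraic_algebraMap _)

theorem genus_of (hHG : SpecHG) {g : ℕ} (D : Dat (g + 1)) (lam : ℤ) (P F : ℂ[X]) (hP : P ≠ 0)
    (hPF : (D.U ℂ lam) ^ 2 - C (4 * (D.ε : ℂ)) = P ^ 2 * F) (hF1 : F.natDegree = 2 * g + 2)
    (hF2 : ∀ z, F.eval z = 0 → F.derivative.eval z ≠ 0) (K : Type) [Field K]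
    [Algebra ℂ K] (x h : K) (hC : IsHyp ℂ K D lam x h) : HasGenus K g := by
  have hPx : aeval x P ≠ 0 := fun h0 => hC.transc ⟨P, hP, h0⟩
  set U : K := aeval x (D.U ℂ lam) with hU
  have hUeq : h ^ 2 + (D.ε : K) = U * h := by
    rw [hU, aeval_U]
    exact hC.eqn
  have h2 : (2 : K) ≠ 0 := by
    have : CharZero K := charZero_of_injective_algebraMap (algebraMap ℂ K).injective
    exact two_ne_zero
  set y : K := (2 * h - U) / aeval x P with hy
  have hPy : aeval x P * y = 2 * h - U := by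
    rw [hy]
    field_simp
  apply hHG K x y F g hC.transc
  · rw [eq_top_iff, ← hC.gen, IntermediateField.adjoin_le_iff]
    rintro z (rfl | hz)
    · exact IntermediateField.subset_adjoin _ _ (by simp)
    · rw [Set.mem_singleton_iff] at hz
      subst hz
      have hx : x ∈ IntermediateField.adjoin ℂ {x, y} :=
        IntermediateField.subset_adjoin _ _ (by simp)
      have hyy : y ∈ IntermediateField.adjoin ℂ {x, y} :=
        IntermediateField.subset_adjoin _ _ (by simp)
      have hp : ∀ p : ℂ[X], aeval x p ∈ IntermediateField.adjoin ℂ {x, y} := by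
        intro p
        induction p using Polynomial.induction_on' with
        | add p q hp hq =>
          rw [map_add]
          exact add_mem hp hq
        | monomial n a =>
          rw [aeval_monomial]
          exact mul_mem (IntermediateField.algebraMap_mem _ _) (pow_mem hx n)
      have h3 : z = (aeval x P * y + U) / 2 := by
        rw [hPy]
        field_simp
        ring
      rw [h3]
      refine div_mem (add_mem (mul_mem (hp P) hyy) (hp _)) ?_
      exact ofNat_mem _ 2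
  · have h3 : aeval x P ^ 2 * y ^ 2 = aeval x P ^ 2 * aeval x F := by
      have h5 : U ^ 2 - 4 * (D.ε : K) = aeval x P ^ 2 * aeval x F := by
        have := congrArg (aeval x) hPF
        rw [map_sub, map_pow, map_mul (aeval x) (P ^ 2), map_pow, aeval_C, map_mul, map_intCast,
          map_ofNat] at this
        exact this
      rw [← h5, ← mul_pow, hPy]
      linear_combination 4 * hUeq
    exact mul_left_cancel₀ (pow_ne_zero 2 hPx) h3
  · rw [hF1]
  · exact hF2

end FINM

end MP743d1e.Hy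
end

section
/-!
# EXA: the unramified elements of `symH`
-/
set_option autoImplicit false

namespace MP743d1e.Hy

open scoped BigOperators

namespace EXAM

open MP743d1e.Span (sml smr sst s1l s1r sil sir sdl sdr s_neg_self s_self s_two s_anti sat)

section Vanish

variable {K : Type} [Field K] {G : Type} [AddCommGroup G]
  (tf : ∀ (n : ℕ) (z : G), 0 < n → n • z = 0 → z = 0) (φ : K2 K →+ G)

theorem anti (u w : Kˣ) : φ (sym u w) = - φ (sym w u) := by
  have := congrArg φ (s_anti u w)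
  rw [map_add, map_zero] at this
  exact eq_neg_of_add_eq_zero_left this

include tf in
theorem self0 (u : Kˣ) : φ (sym u u) = 0 := by
  apply tf 2 _ (by norm_num)
  rw [s_self, two_nsmul, ← map_add, s_two, map_zero]

include tf in
theorem neg1r (u : Kˣ) : φ (sym u (-1)) = 0 := by
  rw [← s_self]
  exact self0 tf φ u

include tf in
theorem neg1l (u : Kˣ) : φ (sym (-1) u) = 0 := by
  rw [anti, neg1r tf φ, neg_zero]

theorem pow_right (u w : Kˣ) (n : ℕ) : φ (sym u (w ^ n)) = n • φ (sym u w) := by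
  induction n with
  | zero => rw [pow_zero, s1r, map_zero, zero_smul]
  | succ n ih => rw [pow_succ, smr, map_add, ih, succ_nsmul]

theorem pow_left (u w : Kˣ) (n : ℕ) : φ (sym (u ^ n) w) = n • φ (sym u w) := by
  induction n with
  | zero => rw [pow_zero, s1l, map_zero, zero_smul]
  | succ n ih => rw [pow_succ, sml, map_add, ih, succ_nsmul]

theorem prod_left {ι : Type} (L : Kˣ) (s : Finset ι) (f : ι → Kˣ) :
    φ (sym (∏ i ∈ s, f i) L) = ∑ i ∈ s, φ (sym (f i) L) := by
  classical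
  induction s using Finset.induction_on with
  | empty => simp [s1l]
  | insert a s ha ih => rw [Finset.prod_insert ha, Finset.sum_insert ha, sml, map_add, ih]

include tf in
theorem sub_one (a f : Kˣ) (h : (a : K) = f - 1) : φ (sym a f) = 0 := by
  have e : a = (-1) * (-a) := by simp
  rw [e, sml, map_add, neg1l tf φ, zero_add, sst (-a) f (by rw [Units.val_neg, h]; ring), map_zero]

include tf in
theorem add_one (a f : Kˣ) (h : (a : K) = f + 1) : φ (sym a f) = 0 := by
  have e : f = (-1) * (-f) := by simp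
  rw [e, smr, map_add, neg1r tf φ, zero_add, sst a (-f) (by rw [Units.val_neg, h]; ring), map_zero]

include tf in
theorem cyclo (a h : Kˣ) (ε e : ℤ) (hε : (ε = 1 ∧ (e = 2 ∨ e = -2)) ∨
    ((ε = 1 ∧ (e = 0 ∨ e = 1 ∨ e = -1)) ∨ (ε = -1 ∧ e = 0)))
    (ha : (a : K) = h ^ 2 - e * h + ε) : φ (sym a h) = 0 := by
  rcases hε with ⟨rfl, rfl | rfl⟩ | ⟨rfl, rfl | rfl | rfl⟩ | ⟨rfl, rfl⟩
  · have hb : (h : K) - 1 ≠ 0 := by
      intro hb
      apply a.ne_zero
      rw [ha]
      push_cast
      linear_combination ((h : K) - 1) * hb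
    have e : a = (Units.mk0 _ hb) ^ 2 := by
      apply Units.ext
      rw [Units.val_pow_eq_pow_val, Units.val_mk0, ha]
      push_cast
      ring
    rw [e, pow_left, sub_one tf φ _ h rfl, smul_zero]
  · have hb : (h : K) + 1 ≠ 0 := by
      intro hb
      apply a.ne_zero
      rw [ha]
      push_cast
      linear_combination ((h : K) + 1) * hb
    have e : a = (Units.mk0 _ hb) ^ 2 := by
      apply Units.ext
      rw [Units.val_pow_eq_pow_val, Units.val_mk0, ha]
      push_cast
      ring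
    rw [e, pow_left, add_one tf φ _ h rfl, smul_zero]
  · apply tf 2 _ (by norm_num)
    rw [← pow_right]
    apply add_one tf φ
    rw [ha, Units.val_pow_eq_pow_val]
    push_cast
    ring
  · by_cases hb : (h : K) + 1 = 0
    · have e : h = -1 := by
        apply Units.ext
        rw [Units.val_neg, Units.val_one]
        linear_combination hb
      rw [e, neg1r tf φ]
    · have h1 : φ (sym (a * Units.mk0 _ hb) h) = 0 := by
        apply tf 3 _ (by norm_num)
        rw [← pow_right]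
        apply add_one tf φ
        rw [Units.val_mul, Units.val_mk0, ha, Units.val_pow_eq_pow_val]
        push_cast
        ring
      rw [sml, map_add, add_one tf φ (Units.mk0 _ hb) h rfl, add_zero] at h1
      exact h1
  · by_cases hb : (h : K) - 1 = 0
    · have e : h = 1 := by
        apply Units.ext
        rw [Units.val_one]
        linear_combination hb
      rw [e, s1r, map_zero]
    · have h1 : φ (sym (a * Units.mk0 _ hb) h) = 0 := by
        apply tf 3 _ (by norm_num)
        rw [← pow_right]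
        apply sub_one tf φ
        rw [Units.val_mul, Units.val_mk0, ha, Units.val_pow_eq_pow_val]
        push_cast
        ring
      rw [sml, map_add, sub_one tf φ (Units.mk0 _ hb) h rfl, add_zero] at h1
      exact h1
  · apply tf 2 _ (by norm_num)
    rw [← pow_right]
    apply sub_one tf φ
    rw [ha, Units.val_pow_eq_pow_val]
    push_cast
    ring

end Vanish

section Curve

variable {K : Type} [Field K] [Algebra ℚ K] {g : ℕ} {D : Dat (g + 1)} {lam : ℤ} {x h : K}
  (hlam : lam ≠ 0) (hC : IsHyp ℚ K D lam x h) {G : Type} [AddCommGroup G]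
  (tf : ∀ (n : ℕ) (z : G), 0 < n → n • z = 0 → z = 0) (φ : K2 K →+ G)
  (X : Fin (g + 1) → Kˣ) (hX : ∀ a, (X a : K) = x - (D.s a : K)) (hh : Kˣ) (hhh : (hh : K) = h)
  (hM : ∀ i : Fin g, φ (sym (X i.succ) hh) = φ (sym (X 0) hh))
  (hCo : ∀ c w : Kˣ, (∃ r : ℚ, (c : K) = algebraMap ℚ K r) → w ∈ unitsH K D x h →
    φ (sym c w) = 0)

theorem cst_ex (K : Type) [Field K] [Algebra ℚ K] (c : ℚ) (hc : c ≠ 0) :
    ∃ u : Kˣ, (u : K) = algebraMap ℚ K c :=
  ⟨Units.mk0 (algebraMap ℚ K c) (by rw [Ne, map_eq_zero]; exact hc), rfl⟩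

include hX in
theorem X_mem (a : Fin (g + 1)) : X a ∈ unitsH K D x h :=
  Subgroup.subset_closure (Or.inl (Or.inr ⟨a, hX a⟩))

include hhh in
theorem hh_mem : hh ∈ unitsH K D x h :=
  Subgroup.subset_closure (Or.inr hhh)

include hCo in
theorem hC2 (c w : Kˣ) (hc : ∃ r : ℚ, (c : K) = algebraMap ℚ K r) (hw : w ∈ unitsH K D x h) :
    φ (sym w c) = 0 := by
  rw [anti, hCo c w hc hw, neg_zero]

include tf hX hCo in
theorem XX (a b : Fin (g + 1)) : φ (sym (X a) (X b)) = 0 := by
  by_cases hab : a = b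
  · rw [hab]
    exact self0 tf φ _
  · have hne : ((D.s b - D.s a : ℤ) : ℚ) ≠ 0 := by
      rw [Ne, Int.cast_eq_zero, sub_eq_zero]
      exact fun e => hab (D.s_inj e).symm
    obtain ⟨c, hc⟩ := cst_ex K _ hne
    have hc' : (c : K) = (D.s b : K) - (D.s a : K) := by
      rw [hc, map_intCast]
      push_cast
      ring
    have hc0 : (c : K) ≠ 0 := Units.ne_zero _
    have key : sym (X a / c) ((-1) * X b / c) = 0 := by
      apply sst
      rw [Units.val_div_eq_div_val, Units.val_div_eq_div_val, Units.val_mul, Units.val_neg,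
        Units.val_one, ← add_div, div_eq_one_iff_eq hc0, hc', hX, hX]
      ring
    have hcm : c ∈ unitsH K D x h := Subgroup.subset_closure (Or.inl (Or.inl ⟨_, hc⟩))
    have hac : X a / c ∈ unitsH K D x h := div_mem (X_mem X hX a) hcm
    have hm1 : ∃ r : ℚ, (((-1 : Kˣ)) : K) = algebraMap ℚ K r := ⟨-1, by simp⟩
    have key2 := congrArg φ key
    rw [sdr, smr, map_sub, map_add, hC2 φ hCo _ _ hm1 hac, hC2 φ hCo _ _ ⟨_, hc⟩ hac, sdl, map_sub,
      hCo _ _ ⟨_, hc⟩ (X_mem X hX b), map_zero] at key2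
    simpa using key2

include hlam hC tf hX hhh hM hCo in
theorem Xh (a : Fin (g + 1)) : φ (sym (X a) hh) = 0 := by
  have hl : (lam : ℚ) ≠ 0 := by exact_mod_cast hlam
  obtain ⟨L, hL⟩ := cst_ex K _ hl
  have hL' : (L : K) = (lam : K) := by rw [hL, map_intCast]
  have hT : ((L * ∏ b, X b ^ D.w b : Kˣ) : K) = D.T lam x := by
    rw [Units.val_mul, Units.coe_prod]
    unfold Dat.T
    simp only [Units.val_pow_eq_pow_val, hX, hL']
  have hadm : (D.ε = 1 ∧ (D.e = 2 ∨ D.e = -2)) ∨
      ((D.ε = 1 ∧ (D.e = 0 ∨ D.e = 1 ∨ D.e = -1)) ∨ (D.ε = -1 ∧ D.e = 0)) := by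
    rcases D.adm with h1 | ⟨_, h1⟩
    · exact Or.inl h1
    · exact Or.inr h1
  have h1 : φ (sym ((L * ∏ b, X b ^ D.w b) * hh) hh) = 0 := by
    apply cyclo tf φ _ hh D.ε D.e hadm
    rw [Units.val_mul, hT, hhh]
    linear_combination - hC.eqn
  rw [sml, map_add, self0 tf φ, add_zero, sml, map_add, hCo L hh ⟨_, hL⟩ (hh_mem hh hhh), zero_add,
    prod_left] at h1
  have hall : ∀ b, φ (sym (X b) hh) = φ (sym (X 0) hh) := by
    intro b
    refine Fin.cases rfl (fun i => hM i) b
  have h2 : ∑ b, φ (sym (X b ^ D.w b) hh) = D.N • φ (sym (X 0) hh) := by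
    unfold Dat.N
    rw [Finset.sum_smul]
    exact Finset.sum_congr rfl fun b _ => by rw [pow_left, hall b]
  rw [h2] at h1
  have hN : 0 < D.N := by
    unfold Dat.N
    calc 0 < D.w 0 := by rcases D.w_mem 0 with h | h <;> omega
      _ ≤ ∑ i, D.w i := Finset.single_le_sum (f := D.w) (fun _ _ => Nat.zero_le _)
          (Finset.mem_univ 0)
  rw [hall a]
  exact tf _ _ hN h1

include hlam hC tf hX hhh hM hCo in
theorem vanish (u w : Kˣ) (hu : u ∈ unitsH K D x h) (hw : w ∈ unitsH K D x h) :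
    φ (sym u w) = 0 := by
  have gen : ∀ u ∈ ({u | ∃ c : ℚ, (u : K) = algebraMap ℚ K c} ∪
      {u | ∃ i, (u : K) = x - (D.s i : K)} ∪ {u | (u : K) = h} : Set Kˣ),
      ∀ w ∈ ({u | ∃ c : ℚ, (u : K) = algebraMap ℚ K c} ∪
      {u | ∃ i, (u : K) = x - (D.s i : K)} ∪ {u | (u : K) = h} : Set Kˣ),
      φ (sym u w) = 0 := by
    intro u hu w hw
    have huU : u ∈ unitsH K D x h := Subgroup.subset_closure hu
    have hwU : w ∈ unitsH K D x h := Subgroup.subset_closure hw
    rcases hu with (hu | ⟨i, hi⟩) | hj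
    · exact hCo u w hu hwU
    · have eu : u = X i := Units.ext (by rw [hi, hX])
      rcases hw with (hw | ⟨i', hi'⟩) | hj'
      · exact hC2 φ hCo w u hw huU
      · have ew : w = X i' := Units.ext (by rw [hi', hX])
        rw [eu, ew]
        exact XX tf φ X hX hCo i i'
      · have ew : w = hh := Units.ext (by rw [hhh]; exact hj')
        rw [eu, ew]
        exact Xh hlam hC tf φ X hX hh hhh hM hCo i
    · have eu : u = hh := Units.ext (by rw [hhh]; exact hj)
      rcases hw with (hw | ⟨i', hi'⟩) | hj'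
      · exact hC2 φ hCo w u hw huU
      · have ew : w = X i' := Units.ext (by rw [hi', hX])
        rw [eu, ew, anti, Xh hlam hC tf φ X hX hh hhh hM hCo i', neg_zero]
      · have ew : w = hh := Units.ext (by rw [hhh]; exact hj')
        rw [eu, ew]
        exact self0 tf φ _
  have step : ∀ u ∈ ({u | ∃ c : ℚ, (u : K) = algebraMap ℚ K c} ∪
      {u | ∃ i, (u : K) = x - (D.s i : K)} ∪ {u | (u : K) = h} : Set Kˣ),
      ∀ w ∈ unitsH K D x h, φ (sym u w) = 0 := by
    intro u hu w hw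
    induction hw using Subgroup.closure_induction with
    | mem w hw => exact gen u hu w hw
    | one => rw [s1r, map_zero]
    | mul a b _ _ ha hb => rw [smr, map_add, ha, hb, add_zero]
    | inv a _ ha => rw [sir, map_neg, ha, neg_zero]
  induction hu using Subgroup.closure_induction with
  | mem u hu => exact step u hu w hw
  | one => rw [s1l, map_zero]
  | mul a b _ _ ha hb => rw [sml, map_add, ha, hb, add_zero]
  | inv a _ ha => rw [sil, map_neg, ha, neg_zero]

end Curve

/-! ### Unramified symbols with constants -/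

open ConstM in
/-- An unramified sum of symbols of a constant and a function is torsion. -/
theorem const_gen (hK : SpecK2Q) (hP : SpecPlace) (K : Type) [Field K] [Algebra ℚ K] (x : K)
    (hx : Transcendental ℚ x) (hfin : FiniteDimensional (IntermediateField.adjoin ℚ {x}) K)
    (hA : ConstQ K) (U : Subgroup Kˣ) (β : K2 K)
    (hβ : β ∈ AddSubgroup.closure {z | ∃ u : Kˣ, (∃ c : ℚ, (u : K) = algebraMap ℚ K c) ∧
      ∃ w ∈ U, z = sym u w}) (hv : ∀ v : DVal K, tame v β = 0) : ∃ N : ℕ, 0 < N ∧ N • β = 0 := by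
  have hle : AddSubgroup.closure {z | ∃ u : Kˣ, (∃ c : ℚ, (u : K) = algebraMap ℚ K c) ∧
      ∃ w ∈ U, z = sym u w} ≤ good U := by
    rw [AddSubgroup.closure_le]
    rintro _ ⟨u, ⟨c, hc⟩, w, hw, rfl⟩
    have hc0 : c ≠ 0 := by
      rintro rfl
      rw [map_zero] at hc
      exact u.ne_zero hc
    have e : u = cu K c := Units.ext (by rw [cu_val hc0, hc])
    rw [e]
    exact rat_mem _ hc0 w hw
  obtain ⟨W, N, h1, h2, h3, h4⟩ := hle hβ
  -- the valuations of the functions `W q` vanish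
  have hord : ∀ v : DVal K,
      (∀ c : Kˣ, (∃ r : ℚ, (c : K) = algebraMap ℚ K r) → v.ord c = 0) →
      ∀ q, v.ord (W q) = 0 := by
    intro v hv0 q
    by_cases hqp : q.Prime
    swap
    · rw [h2 q hqp, v.ord_one]
    by_cases hqN : q < N
    swap
    · rw [h1 q (not_lt.1 hqN), v.ord_one]
    have hcu : ∀ c : ℚ, v.ord (cu K c) = 0 := by
      intro c
      by_cases hc : c = 0
      · have : cu K c = 1 := by
          unfold cu
          rw [dif_pos hc]
        rw [this, v.ord_one]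
      · exact hv0 _ ⟨c, cu_val hc⟩
    have ht : tame v (2 • β) = 0 := by
      have hk : β ∈ (tame v).ker := AddMonoidHom.mem_ker.2 (hv v)
      exact AddMonoidHom.mem_ker.1 (AddSubgroup.nsmul_mem _ hk 2)
    rw [h4, map_sum] at ht
    have e1 : ∀ p ∈ Finset.range N, tame v (sym (cu K (p : ℚ)) (W p)) =
        Additive.ofMul (QuotientGroup.mk (s := v.U1)
          (if p.Prime then (cu K (p : ℚ)) ^ v.ord (W p) else 1)) := by
      intro p _
      rw [tame_sym]
      by_cases hp : p.Prime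
      · rw [if_pos hp]
        unfold DVal.tameUnit
        rw [hcu]
        simp
      · rw [if_neg hp, h2 p hp]
        unfold DVal.tameUnit
        rw [hcu, v.ord_one]
        simp
    rw [Finset.sum_congr rfl e1] at ht
    have e2 : (QuotientGroup.mk (s := v.U1) (∏ p ∈ Finset.range N,
        (if p.Prime then (cu K (p : ℚ)) ^ v.ord (W p) else 1)) : Kˣ ⧸ v.U1) = 1 := by
      have h5 := map_prod (QuotientGroup.mk' v.U1) (fun p : ℕ =>
        (if p.Prime then (cu K (p : ℚ)) ^ v.ord (W p) else 1)) (Finset.range N)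
      have h6 : Additive.toMul (∑ p ∈ Finset.range N, Additive.ofMul (QuotientGroup.mk (s := v.U1)
          (if p.Prime then (cu K (p : ℚ)) ^ v.ord (W p) else 1))) = 1 := by
        rw [ht]; rfl
      rw [toMul_sum] at h6
      exact h5.trans h6
    rw [QuotientGroup.eq_one_iff, DVal.mem_U1] at e2
    -- the product is a constant
    have e3 : ((∏ p ∈ Finset.range N,
        (if p.Prime then (cu K (p : ℚ)) ^ v.ord (W p) else 1) : Kˣ) : K) =
        algebraMap ℚ K (∏ p ∈ (Finset.range N).filter Nat.Prime, ((p : ℕ) : ℚ) ^ v.ord (W p)) := by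
      rw [Units.coe_prod, Finset.prod_filter, map_prod]
      apply Finset.prod_congr rfl
      intro p _
      by_cases hp : p.Prime
      · rw [if_pos hp, if_pos hp, Units.val_zpow_eq_zpow_val, map_zpow₀,
          cu_val (Nat.cast_ne_zero.2 hp.ne_zero)]
      · rw [if_neg hp, if_neg hp, Units.val_one, map_one]
    have e4 : (∏ p ∈ (Finset.range N).filter Nat.Prime, ((p : ℕ) : ℚ) ^ v.ord (W p)) = 1 := by
      rcases e2 with e2 | ⟨u, hu, hu1⟩
      · rw [e2, Units.val_one] at e3
        apply (algebraMap ℚ K).injective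
        rw [map_one]
        exact e3.symm
      · exfalso
        have : v.ord u = 0 := hv0 u ⟨_, by
          rw [← hu, e3, ← map_one (algebraMap ℚ K), ← map_sub]⟩
        omega
    exact exps_zero N (fun p => v.ord (W p)) e4 q hqp hqN
  -- the functions `W q` are constant
  have hconst : ∀ q, ∃ r : ℚˣ, Units.map (algebraMap ℚ K : ℚ →* K) r = W q := by
    intro q
    have halg : IsAlgebraic ℚ (W q : K) := by
      by_contra hne
      obtain ⟨v, hv0, hv1⟩ := hP K x hx hfin (W q) hne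
      exact hv1 (hord v hv0 q)
    obtain ⟨r, hr⟩ := hA _ halg
    have hr0 : r ≠ 0 := by
      rintro rfl
      rw [map_zero] at hr
      exact (W q).ne_zero hr.symm
    exact ⟨Units.mk0 r hr0, Units.ext hr⟩
  choose r hr using hconst
  obtain ⟨M, hM, hM2⟩ := hK (∑ p ∈ Finset.range N, sym (cu ℚ (p : ℚ)) (r p))
  refine ⟨M * 2, by positivity, ?_⟩
  rw [mul_nsmul', h4]
  have h7 : ∑ p ∈ Finset.range N, sym (cu K (p : ℚ)) (W p) =
      mapK (algebraMap ℚ K) (∑ p ∈ Finset.range N, sym (cu ℚ (p : ℚ)) (r p)) := by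
    rw [map_sum]
    apply Finset.sum_congr rfl
    intro p _
    rw [mapK_sym]
    congr 1
    · apply Units.ext
      by_cases hp : (p : ℚ) = 0
      · simp [cu, hp]
      · rw [cu_val hp]
        show algebraMap ℚ K (p : ℚ) = algebraMap ℚ K (cu ℚ (p : ℚ) : ℚ)
        rw [cu_val hp]
        rfl
    · exact (hr p).symm
  rw [h7, ← map_nsmul, hM2, map_zero]

end EXAM

open EXAM _root_.MP743d1e.Span in
/-- EXA -/
theorem specEXA (hK : SpecK2Q) (hP : SpecPlace) (hINT : SpecINT) (hIRR : SpecIRR)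
    (hCON : SpecCON) : SpecEXA := by
  intro K _ _ g D lam x h hlam hC u hh hu hhh β hβ hv
  set C : AddSubgroup (K2 K) := AddSubgroup.closure {z | ∃ u : Kˣ, (∃ c : ℚ, (u : K) =
    algebraMap ℚ K c) ∧ ∃ w ∈ unitsH K D x h, z = sym u w} with hCdef
  set M : AddSubgroup (K2 K) :=
    AddSubgroup.closure (Set.range fun i => 12 • sym (u i) hh) ⊔ C with hMdef
  have hzero : ∀ β : K2 K, QuotientAddGroup.mk' (sat M) β = 0 ↔ ∃ N : ℕ, 0 < N ∧ N • β ∈ M :=
    fun β => QuotientAddGroup.eq_zero_iff β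
  have tf : ∀ (n : ℕ) (g : K2 K ⧸ sat M), 0 < n → n • g = 0 → g = 0 := by
    intro n g hn hg
    obtain ⟨β, rfl⟩ := QuotientAddGroup.mk'_surjective (sat M) g
    rw [← map_nsmul, hzero] at hg
    rw [hzero]
    obtain ⟨N, hN, hN'⟩ := hg
    refine ⟨N * n, Nat.mul_pos hN hn, ?_⟩
    rw [mul_smul]
    exact hN'
  have hle : ∀ β ∈ M, QuotientAddGroup.mk' (sat M) β = 0 := fun β hβ =>
    (hzero β).mpr ⟨1, one_pos, by rwa [one_smul]⟩
  set X : Fin (g + 1) → Kˣ := fun a => Units.mk0 _ (FINM.sub_ne hC a) with hXdef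
  have hX : ∀ a, (X a : K) = x - (D.s a : K) := fun a => rfl
  have hM' : ∀ i : Fin g, QuotientAddGroup.mk' (sat M) (sym (X i.succ) hh) =
      QuotientAddGroup.mk' (sat M) (sym (X 0) hh) := by
    intro i
    have hui : X i.succ = u i * X 0 := by
      apply Units.ext
      rw [Units.val_mul, hX, hX, hu]
    have h0 : QuotientAddGroup.mk' (sat M) (sym (u i) hh) = 0 := by
      apply tf 12 _ (by norm_num)
      rw [← map_nsmul]
      exact hle _ ((le_sup_left : _ ≤ M) (AddSubgroup.subset_closure ⟨i, rfl⟩))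
    rw [hui, sml, map_add, h0, zero_add]
  have hC' : ∀ c w : Kˣ, (∃ r : ℚ, (c : K) = algebraMap ℚ K r) → w ∈ unitsH K D x h →
      QuotientAddGroup.mk' (sat M) (sym c w) = 0 := fun c w hc hw =>
    hle _ ((le_sup_right : _ ≤ M) (AddSubgroup.subset_closure ⟨c, hc, w, hw, rfl⟩))
  have hβ0 : QuotientAddGroup.mk' (sat M) β = 0 := by
    clear hv
    unfold symH at hβ
    induction hβ using AddSubgroup.closure_induction with
    | mem z hz =>
      obtain ⟨u', hu', w', hw', rfl⟩ := hz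
      exact vanish hlam hC tf _ X hX hh hhh hM' hC' u' w' hu' hw'
    | zero => rw [map_zero]
    | add a b _ _ ha hb => rw [map_add, ha, hb, add_zero]
    | neg a _ ha => rw [map_neg, ha, neg_zero]
  obtain ⟨N, hN, hmem⟩ := (hzero β).1 hβ0
  rw [hMdef, AddSubgroup.mem_sup] at hmem
  obtain ⟨a, ha, c, hc, hac⟩ := hmem
  have hav : ∀ v : DVal K, tame v a = 0 := by
    intro v
    have hle : AddSubgroup.closure (Set.range fun i => 12 • sym (u i) hh) ≤ (tame v).ker := by
      rw [AddSubgroup.closure_le]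
      rintro z ⟨i, rfl⟩
      exact hINT K D lam x h hC (u i) hh i.succ (hu i) hhh v
    exact hle ha
  have hcv : ∀ v : DVal K, tame v c = 0 := by
    intro v
    have e : c = N • β - a := by rw [← hac]; abel
    have h1 : β ∈ (tame v).ker := hv v
    have h2 : a ∈ (tame v).ker := hav v
    rw [e]
    exact AddSubgroup.sub_mem _ (AddSubgroup.nsmul_mem _ h1 N) h2
  obtain ⟨N', hN', hc0⟩ := const_gen hK hP K x hC.transc ((hIRR ℚ D lam hlam).2 K x h hC).1
    (hCON K D lam x h hlam hC) _ c hc hcv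
  refine ⟨N' * N, Nat.mul_pos hN' hN, ?_⟩
  have e : (N' * N) • β = N' • a := by
    rw [mul_comm, mul_nsmul, ← hac, nsmul_add, hc0, add_zero]
  rw [e]
  exact AddSubgroup.nsmul_mem _ ha N'

end MP743d1e.Hy
end
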