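import Mathlib

/-!
# The logarithmic energy of a configuration of integers

For distinct integers `s k` and real `z k` with sum zero
`∑ z k * z j * log |s k - s j| ≤ log 2 * ∑ z k ^ 2`.
-/

set_option autoImplicit false

namespace MP743d1e.Hy.ENEM

open scoped BigOperators

section Abel

/-- Abel's inequality -/
theorem abel (Δ W : ℕ → ℝ) (S : ℝ) (hΔ : ∀ i, 1 ≤ i → Δ (i + 1) ≤ Δ i) (hΔ0 : ∀ i, 1 ≤ i → 0 ≤ Δ i)
    (hS : 0 ≤ S) (hP : ∀ m, ∑ i ∈ Finset.Icc 1 m, W i ≤ S) (n : ℕ) :
    ∑ i ∈ Finset.Icc 1 n, Δ i * W i ≤ Δ 1 * S := by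
  rcases Nat.eq_zero_or_pos n with h0 | hn
  · subst h0
    simpa using mul_nonneg (hΔ0 1 le_rfl) hS
  · have key : ∀ n, 1 ≤ n → ∑ i ∈ Finset.Icc 1 n, Δ i * W i - Δ n * ∑ i ∈ Finset.Icc 1 n, W i ≤
        (Δ 1 - Δ n) * S := by
      intro n hn
      induction n, hn using Nat.le_induction with
      | base => simp
      | succ n hn ih =>
        rw [Finset.sum_Icc_succ_top (by omega), Finset.sum_Icc_succ_top (by omega)]
        have h1 := hΔ n hn
        have h2 := hP n
        nlinarith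
    have h1 := key n hn
    have h2 := mul_le_mul_of_nonneg_left (hP n) (hΔ0 n hn)
    linarith

end Abel

/-- the first differences of the logarithm -/
noncomputable def dl (i : ℕ) : ℝ := Real.log ((i : ℝ) + 1) - Real.log i

theorem dl_nonneg (i : ℕ) (hi : 1 ≤ i) : 0 ≤ dl i := by
  have h1 : (1 : ℝ) ≤ i := by exact_mod_cast hi
  have := Real.log_le_log (by linarith : (0 : ℝ) < i) (by linarith : (i : ℝ) ≤ i + 1)
  unfold dl
  linarith

theorem dl_anti (i : ℕ) (hi : 1 ≤ i) : dl (i + 1) ≤ dl i := by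
  have h1 : (1 : ℝ) ≤ i := by exact_mod_cast hi
  have h2 : (0 : ℝ) < i := by linarith
  have h3 : Real.log (i : ℝ) + Real.log ((i : ℝ) + 2) ≤ 2 * Real.log ((i : ℝ) + 1) := by
    rw [← Real.log_mul h2.ne' (by positivity)]
    have h4 : 2 * Real.log ((i : ℝ) + 1) = Real.log (((i : ℝ) + 1) ^ 2) := by
      rw [Real.log_pow]
      norm_num
    rw [h4]
    exact Real.log_le_log (by positivity) (by nlinarith)
  unfold dl
  push_cast
  have h5 : (i : ℝ) + 1 + 1 = i + 2 := by ring
  rw [h5]
  linarith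

theorem log_eq (n d : ℕ) (hd : d ≤ n) :
    Real.log (d : ℝ) = ∑ i ∈ Finset.Icc 1 n, dl i * (if i < d then 1 else 0) := by
  have h1 : ∑ i ∈ Finset.Icc 1 n, dl i * (if i < d then (1 : ℝ) else 0) =
      ∑ i ∈ Finset.Ico 1 d, dl i := by
    simp only [mul_ite, mul_one, mul_zero]
    rw [← Finset.sum_filter]
    apply Finset.sum_congr _ fun _ _ => rfl
    ext i
    simp only [Finset.mem_filter, Finset.mem_Icc, Finset.mem_Ico]
    omega
  rw [h1]
  rcases Nat.eq_zero_or_pos d with h0 | hd0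
  · subst h0
    simp
  · clear h1 hd
    induction d, hd0 using Nat.le_induction with
    | base => simp
    | succ d hd ih =>
      rw [Finset.sum_Ico_succ_top hd, ← ih]
      unfold dl
      push_cast
      ring

variable {ι : Type} [Fintype ι]

theorem pos_def (s : ι → ℤ) (z : ι → ℝ) (m : ℕ) :
    0 ≤ ∑ k, ∑ j, z k * z j * ((m : ℝ) - min ((s k - s j).natAbs : ℝ) m) := by
  classical
  set I : Finset ℤ := Finset.univ.biUnion fun k => Finset.Ico (s k) (s k + m) with hI
  set χ : ι → ℤ → ℝ := fun k x => if x ∈ Finset.Ico (s k) (s k + m) then 1 else 0 with hχ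
  have h1 : ∀ k j, ∑ x ∈ I, χ k x * χ j x = (m : ℝ) - min ((s k - s j).natAbs : ℝ) m := by
    intro k j
    have h2 : ∑ x ∈ I, χ k x * χ j x =
        ((Finset.Ico (s k) (s k + m) ∩ Finset.Ico (s j) (s j + m)).card : ℝ) := by
      have h3 : ∀ x, χ k x * χ j x =
          if x ∈ Finset.Ico (s k) (s k + m) ∩ Finset.Ico (s j) (s j + m) then 1 else 0 := by
        intro x
        simp only [hχ, Finset.mem_inter]
        split_ifs <;> simp_all
      rw [Finset.sum_congr rfl fun x _ => h3 x, Finset.sum_ite_mem, Finset.sum_const,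
        nsmul_eq_mul, mul_one]
      congr 2
      rw [Finset.inter_eq_right]
      intro x hx
      rw [Finset.mem_inter] at hx
      exact Finset.mem_biUnion.2 ⟨k, Finset.mem_univ k, hx.1⟩
    rw [h2, Finset.Ico_inter_Ico, Int.card_Ico]
    have h4 : ((min (s k + m) (s j + m) - max (s k) (s j)).toNat : ℤ) =
        (m : ℤ) - min ((s k - s j).natAbs : ℤ) m := by
      omega
    have h5 := congrArg (fun z : ℤ => (z : ℝ)) h4
    simp only [Int.cast_natCast, Int.cast_sub, Int.cast_min] at h5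
    exact h5
  have h2 : ∑ k, ∑ j, z k * z j * ((m : ℝ) - min ((s k - s j).natAbs : ℝ) m) =
      ∑ x ∈ I, (∑ k, z k * χ k x) ^ 2 := by
    have h3 : ∀ x, (∑ k, z k * χ k x) ^ 2 = ∑ k, ∑ j, z k * z j * (χ k x * χ j x) := by
      intro x
      rw [sq, Finset.sum_mul_sum]
      refine Finset.sum_congr rfl fun k _ => Finset.sum_congr rfl fun j _ => ?_
      ring
    rw [Finset.sum_congr rfl fun x _ => h3 x]
    symm
    rw [Finset.sum_comm]
    refine Finset.sum_congr rfl fun k _ => ?_
    rw [Finset.sum_comm]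
    refine Finset.sum_congr rfl fun j _ => ?_
    rw [← Finset.mul_sum, h1]
  rw [h2]
  exact Finset.sum_nonneg fun x _ => sq_nonneg _

theorem sum_sq_zero (z : ι → ℝ) (hz : ∑ k, z k = 0) : ∑ k, ∑ j, z k * z j = 0 := by
  rw [← Finset.sum_mul_sum, hz, zero_mul]

theorem neg_min (s : ι → ℤ) (z : ι → ℝ) (hz : ∑ k, z k = 0) (m : ℕ) :
    ∑ k, ∑ j, z k * z j * min ((s k - s j).natAbs : ℝ) m ≤ 0 := by
  have h1 := pos_def s z m
  have h2 : ∑ k, ∑ j, z k * z j * ((m : ℝ) - min ((s k - s j).natAbs : ℝ) m) =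
      m * (∑ k, ∑ j, z k * z j) - ∑ k, ∑ j, z k * z j * min ((s k - s j).natAbs : ℝ) m := by
    rw [Finset.mul_sum, ← Finset.sum_sub_distrib]
    refine Finset.sum_congr rfl fun k _ => ?_
    rw [Finset.mul_sum, ← Finset.sum_sub_distrib]
    refine Finset.sum_congr rfl fun j _ => ?_
    ring
  rw [h2, sum_sq_zero z hz, mul_zero] at h1
  linarith

/-- the energy inequality -/
theorem energy (s : ι → ℤ) (hs : Function.Injective s) (z : ι → ℝ) (hz : ∑ k, z k = 0) :
    ∑ k, ∑ j, z k * z j * Real.log |(s k : ℝ) - s j| ≤ Real.log 2 * ∑ k, z k ^ 2 := by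
  classical
  set W : ℕ → ℝ := fun i => ∑ k, ∑ j, z k * z j * (if i < (s k - s j).natAbs then 1 else 0) with hW
  obtain ⟨n, hn⟩ : ∃ n : ℕ, ∀ k j, (s k - s j).natAbs ≤ n := by
    refine ⟨∑ k, ∑ j, (s k - s j).natAbs, fun k j => ?_⟩
    exact (Finset.single_le_sum (f := fun j => (s k - s j).natAbs) (fun _ _ => Nat.zero_le _)
      (Finset.mem_univ j)).trans (Finset.single_le_sum
        (f := fun k => ∑ j, (s k - s j).natAbs) (fun _ _ => Nat.zero_le _) (Finset.mem_univ k))
  have h1 : ∑ k, ∑ j, z k * z j * Real.log |(s k : ℝ) - s j| =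
      ∑ i ∈ Finset.Icc 1 n, dl i * W i := by
    have h2 : ∀ k j, z k * z j * Real.log |(s k : ℝ) - s j| =
        ∑ i ∈ Finset.Icc 1 n, dl i * (z k * z j * (if i < (s k - s j).natAbs then 1 else 0)) := by
      intro k j
      have h3 : |(s k : ℝ) - s j| = (((s k - s j).natAbs : ℕ) : ℝ) := by
        rw [Nat.cast_natAbs]
        push_cast
        rfl
      rw [h3, log_eq n _ (hn k j), Finset.mul_sum]
      refine Finset.sum_congr rfl fun i _ => ?_
      ring
    have h4 : ∀ k, ∑ j, z k * z j * Real.log |(s k : ℝ) - s j| = ∑ i ∈ Finset.Icc 1 n,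
        ∑ j, dl i * (z k * z j * (if i < (s k - s j).natAbs then 1 else 0)) := by
      intro k
      rw [Finset.sum_congr rfl fun j _ => h2 k j, Finset.sum_comm]
    rw [Finset.sum_congr rfl fun k _ => h4 k, Finset.sum_comm]
    refine Finset.sum_congr rfl fun i _ => ?_
    rw [hW, Finset.mul_sum]
    refine Finset.sum_congr rfl fun k _ => ?_
    rw [Finset.mul_sum]
  have hW0 : W 0 = -∑ k, z k ^ 2 := by
    have h2 : ∀ k, ∑ j, z k * z j * (if 0 < (s k - s j).natAbs then (1 : ℝ) else 0) =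
        (∑ j, z k * z j) - z k ^ 2 := by
      intro k
      have h3 : ∀ j, z k * z j * (if 0 < (s k - s j).natAbs then (1 : ℝ) else 0) =
          z k * z j - if j = k then z k ^ 2 else 0 := by
        intro j
        by_cases hjk : j = k
        · subst hjk
          simp [sq]
        · have h4 : 0 < (s k - s j).natAbs := by
            rw [Int.natAbs_pos]
            exact fun h => hjk (hs (sub_eq_zero.1 h)).symm
          rw [if_pos h4, if_neg hjk]
          ring
      rw [Finset.sum_congr rfl fun j _ => h3 j, Finset.sum_sub_distrib, Finset.sum_ite_eq' _ k,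
        if_pos (Finset.mem_univ k)]
    rw [hW]
    show ∑ k, ∑ j, z k * z j * (if 0 < (s k - s j).natAbs then (1 : ℝ) else 0) = _
    rw [Finset.sum_congr rfl fun k _ => h2 k, Finset.sum_sub_distrib, sum_sq_zero z hz, zero_sub]
  have hP : ∀ m, ∑ i ∈ Finset.Icc 1 m, W i ≤ ∑ k, z k ^ 2 := by
    intro m
    have h2 : ∑ i ∈ Finset.range (m + 1), W i =
        ∑ k, ∑ j, z k * z j * min ((s k - s j).natAbs : ℝ) ((m + 1 : ℕ) : ℝ) := by
      rw [hW, Finset.sum_comm]
      refine Finset.sum_congr rfl fun k _ => ?_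
      rw [Finset.sum_comm]
      refine Finset.sum_congr rfl fun j _ => ?_
      rw [← Finset.mul_sum]
      congr 1
      rw [Finset.sum_boole, ← Nat.cast_min]
      congr 1
      have : (Finset.range (m + 1)).filter (fun i => i < (s k - s j).natAbs) =
          Finset.range (min (s k - s j).natAbs (m + 1)) := by
        ext i
        simp only [Finset.mem_filter, Finset.mem_range]
        omega
      rw [this, Finset.card_range]
    have h3 := neg_min s z hz (m + 1)
    rw [← h2] at h3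
    have h4 : ∑ i ∈ Finset.range (m + 1), W i = W 0 + ∑ i ∈ Finset.Icc 1 m, W i := by
      rw [Finset.range_eq_Ico, Finset.sum_eq_sum_Ico_succ_bot (by omega)]
      rfl
    rw [h4, hW0] at h3
    linarith
  rw [h1]
  have h5 := abel dl W (∑ k, z k ^ 2) dl_anti dl_nonneg
    (Finset.sum_nonneg fun k _ => sq_nonneg _) hP n
  have h6 : dl 1 = Real.log 2 := by
    unfold dl
    norm_num
  rwa [h6] at h5

end MP743d1e.Hy.ENEM
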