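import Pool.Agent.Lib.MP_743d1e_nt.Statement

/-!
# Hyperelliptic curves `h + ε / h = e + lam * ∏ (x - s i) ^ (w i)`

Definitions for the uniform theorem on hyperelliptic curves.
-/

set_option autoImplicit false

namespace MP743d1e.Hy

open scoped BigOperators

/-- The data of a hyperelliptic curve: `k` distinct integers `s i` with multiplicities
`w i ∈ {1, 2}`, a sign `ε` and an integer `e` such that `X ^ 2 - e * X + ε` is a product of
cyclotomic polynomials; double roots are allowed only if `ε = 1` and `e = ± 2`. -/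
structure Dat (k : ℕ) where
  s : Fin k → ℤ
  w : Fin k → ℕ
  ε : ℤ
  e : ℤ
  s_inj : Function.Injective s
  w_mem : ∀ i, w i = 1 ∨ w i = 2
  adm : (ε = 1 ∧ (e = 2 ∨ e = -2)) ∨
    ((∀ i, w i = 1) ∧ ((ε = 1 ∧ (e = 0 ∨ e = 1 ∨ e = -1)) ∨ (ε = -1 ∧ e = 0)))

namespace Dat

variable {k : ℕ} (D : Dat k)

/-- The degree of `T`. -/
def N : ℕ := ∑ i, D.w i

/-- `T(x) = lam * ∏ (x - s i) ^ (w i)`. -/
def T {K : Type} [Field K] (lam : ℤ) (x : K) : K := (lam : K) * ∏ i, (x - (D.s i : K)) ^ D.w i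

/-- The roots have mutual distances at least `t`. -/
def Sep (t : ℝ) : Prop := ∀ i j, i ≠ j → t ≤ |(D.s i : ℝ) - D.s j|

end Dat

/-- `K` is the function field `k₀(x, h)` of the curve `h + ε / h = e + T(x)`, in other words
`h ^ 2 + ε = (e + T(x)) * h`. -/
structure IsHyp (k₀ K : Type) [Field k₀] [Field K] [Algebra k₀ K] {k : ℕ} (D : Dat k) (lam : ℤ)
    (x h : K) : Prop where
  transc : Transcendental k₀ x
  gen : IntermediateField.adjoin k₀ {x, h} = ⊤
  eqn : h ^ 2 + (D.ε : K) = ((D.e : K) + D.T lam x) * h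

/-- The model of the regulator matrix, divided by `2 * π`: the entry for the symbol
`{(x - s (i + 1)) / (x - s 0), h}` and the loop around `s (k + 1)`. (`Real.log 0 = 0` is used in the
terms with two equal indices.) -/
noncomputable def Dat.A {g : ℕ} (D : Dat (g + 1)) (lam : ℤ) (i k : Fin g) : ℝ :=
  (D.w k.succ : ℝ) * (Real.log |(D.s k.succ : ℝ) - D.s i.succ| -
    Real.log |(D.s k.succ : ℝ) - D.s 0|) -
  if i = k then Real.log |(lam : ℝ)| +
    ∑ j, (D.w j : ℝ) * Real.log |(D.s k.succ : ℝ) - D.s j| else 0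

end MP743d1e.Hy
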