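import Pool.Agent.Lib.MP_743d1e_nt.HY.Spec
import Pool.Agent.Lib.MP_743d1e_nt.UpperLat
import Pool.Agent.Lib.MP_743d1e_nt.Kae
import Pool.Agent.Lib.MP_743d1e_nt.Trace

/-!
# HG: the genus of a hyperelliptic function field
-/

set_option autoImplicit false

namespace MP743d1e.Hy

open scoped BigOperators
open Polynomial

namespace HG

/-! ### quadratic extensions -/

section quad

variable {E K : Type} [Field E] [Field K] [Algebra E K] {y : K} {c : E}

theorem isIntegral_of_sq (hy : y ^ 2 = algebraMap E K c) : IsIntegral E y := by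
  refine ⟨X ^ 2 - C c, monic_X_pow_sub_C c two_ne_zero, ?_⟩
  rw [eval₂_sub, eval₂_X_pow, eval₂_C, hy, sub_self]

theorem minpoly_quad (hy : y ^ 2 = algebraMap E K c) (hyE : y ∉ (algebraMap E K).range) :
    minpoly E y = X ^ 2 - C c := by
  have hint := isIntegral_of_sq hy
  symm
  refine eq_of_monic_of_dvd_of_natDegree_le (minpoly.monic hint)
    (monic_X_pow_sub_C c two_ne_zero) (minpoly.dvd E y ?_) ?_
  · rw [map_sub, map_pow, aeval_X, aeval_C, hy, sub_self]
  · rw [natDegree_X_pow_sub_C]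
    exact (minpoly.two_le_natDegree_iff hint).2 hyE

theorem adjoin_eq_top (hy : y ^ 2 = algebraMap E K c) (hgen : IntermediateField.adjoin E {y} = ⊤) :
    Algebra.adjoin E {y} = ⊤ := by
  have := IntermediateField.adjoin_simple_toSubalgebra_of_isAlgebraic
    (isIntegral_of_sq hy).isAlgebraic
  rw [← this, hgen]
  rfl

theorem exists_pb (hy : y ^ 2 = algebraMap E K c) (hyE : y ∉ (algebraMap E K).range)
    (hgen : IntermediateField.adjoin E {y} = ⊤) :
    ∃ pb : PowerBasis E K, pb.gen = y ∧ pb.dim = 2 := by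
  refine ⟨PowerBasis.ofAdjoinEqTop (isIntegral_of_sq hy) (adjoin_eq_top hy hgen), rfl, ?_⟩
  rw [PowerBasis.ofAdjoinEqTop_dim, minpoly_quad hy hyE, natDegree_X_pow_sub_C]

theorem finite_quad (hy : y ^ 2 = algebraMap E K c) (hyE : y ∉ (algebraMap E K).range)
    (hgen : IntermediateField.adjoin E {y} = ⊤) : FiniteDimensional E K := by
  obtain ⟨pb, -, -⟩ := exists_pb hy hyE hgen
  exact pb.finite

theorem finrank_quad (hy : y ^ 2 = algebraMap E K c) (hyE : y ∉ (algebraMap E K).range)
    (hgen : IntermediateField.adjoin E {y} = ⊤) : Module.finrank E K = 2 := by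
  obtain ⟨pb, -, h⟩ := exists_pb hy hyE hgen
  rw [pb.finrank, h]

theorem trace_quad (hy : y ^ 2 = algebraMap E K c) (hyE : y ∉ (algebraMap E K).range)
    (hgen : IntermediateField.adjoin E {y} = ⊤) (a b : E) :
    Algebra.trace E K (algebraMap E K a + algebraMap E K b * y) = 2 * a := by
  obtain ⟨pb, hg, -⟩ := exists_pb hy hyE hgen
  have h1 : Algebra.trace E K y = 0 := by
    have := PowerBasis.trace_gen_eq_nextCoeff_minpoly pb
    rw [hg, minpoly_quad hy hyE] at this
    rw [this, nextCoeff, natDegree_X_pow_sub_C, if_neg two_ne_zero]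
    simp [coeff_X_pow]
  rw [map_add, ← Algebra.smul_def, map_smul, h1, smul_zero, add_zero, Algebra.trace_algebraMap,
    finrank_quad hy hyE hgen, nsmul_eq_mul, Nat.cast_ofNat]

theorem exists_coord (hy : y ^ 2 = algebraMap E K c)
    (hgen : IntermediateField.adjoin E {y} = ⊤) (f : K) :
    ∃ a b : E, f = algebraMap E K a + algebraMap E K b * y := by
  have h1 : f ∈ Algebra.adjoin E {y} := by
    rw [adjoin_eq_top hy hgen]
    exact Algebra.mem_top
  rw [Algebra.adjoin_singleton_eq_range_aeval] at h1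
  obtain ⟨P, hP⟩ := h1
  have hmon : (X ^ 2 - C c : E[X]).Monic := monic_X_pow_sub_C c two_ne_zero
  have hne : (X ^ 2 - C c : E[X]) ≠ 0 := hmon.ne_zero
  have hdeg : (P %ₘ (X ^ 2 - C c)).degree ≤ 1 := by
    by_cases h0 : P %ₘ (X ^ 2 - C c) = 0
    · rw [h0, degree_zero]
      exact bot_le
    have := degree_modByMonic_lt P hmon
    rw [degree_X_pow_sub_C two_pos, ← natDegree_lt_iff_degree_lt h0] at this
    rw [degree_eq_natDegree h0]
    exact_mod_cast Nat.le_of_lt_succ this
  have h2 := eq_X_add_C_of_degree_le_one hdeg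
  have h3 := modByMonic_add_div P (X ^ 2 - C c)
  refine ⟨(P %ₘ (X ^ 2 - C c)).coeff 0, (P %ₘ (X ^ 2 - C c)).coeff 1, ?_⟩
  have h4 : aeval y (X ^ 2 - C c : E[X]) = 0 := by
    rw [map_sub, map_pow, aeval_X, aeval_C, hy, sub_self]
  have h5 : (aeval y : E[X] →ₐ[E] K) P = f := hP
  rw [← h5]
  conv_lhs => rw [← h3]
  rw [map_add, map_mul, h4, zero_mul, add_zero]
  conv_lhs => rw [h2]
  rw [map_add, map_mul, aeval_C, aeval_C, aeval_X, add_comm]

end quad

/-! ### the function field -/

variable {K : Type} [Field K] [Algebra ℂ K] {x y : K} {F : ℂ[X]} {g : ℕ}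

theorem Ct_inv (x : K) : Ct x⁻¹ = Ct x := by
  apply le_antisymm
  · rw [IntermediateField.adjoin_simple_le_iff]
    exact inv_mem (IntermediateField.mem_adjoin_simple_self ℂ x)
  · rw [IntermediateField.adjoin_simple_le_iff]
    have := inv_mem (IntermediateField.mem_adjoin_simple_self ℂ x⁻¹)
    rwa [inv_inv] at this

theorem aeval_mem_Ct (x : K) (p : ℂ[X]) : aeval x p ∈ Ct x := by
  have h : algebraMap (Ct x) K (IntermediateField.AdjoinSimple.gen ℂ x) = x :=
    IntermediateField.AdjoinSimple.algebraMap_gen ℂ x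
  have h2 : aeval x p =
      algebraMap (Ct x) K (aeval (IntermediateField.AdjoinSimple.gen ℂ x) p) := by
    rw [← aeval_algebraMap_apply, h]
  rw [h2]
  exact Subtype.property _

theorem aeval_inj (hx : Transcendental ℂ x) {p q : ℂ[X]} (h : aeval x p = aeval x q) : p = q :=
  (transcendental_iff_injective.1 hx) h

theorem aeval_ne (hx : Transcendental ℂ x) {p : ℂ[X]} (h : p ≠ 0) : aeval x p ≠ 0 := by
  intro h0
  exact h (aeval_inj hx (by rw [h0, map_zero]))

theorem F_ne (hdeg : F.natDegree = 2 * g + 2) : F ≠ 0 := by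
  rintro rfl
  rw [natDegree_zero] at hdeg
  omega

theorem y_ne (hx : Transcendental ℂ x) (hy : y ^ 2 = aeval x F)
    (hdeg : F.natDegree = 2 * g + 2) : y ≠ 0 := by
  rintro rfl
  rw [zero_pow two_ne_zero] at hy
  exact aeval_ne hx (F_ne hdeg) hy.symm

theorem y_not_mem (hx : Transcendental ℂ x) (hy : y ^ 2 = aeval x F)
    (hdeg : F.natDegree = 2 * g + 2)
    (hF : ∀ z, F.eval z = 0 → F.derivative.eval z ≠ 0) : y ∉ Ct x := by
  intro h
  obtain ⟨r, s, hrs⟩ := (IntermediateField.mem_adjoin_simple_iff ℂ y).1 h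
  have hF0 := F_ne hdeg
  have hy0 := y_ne hx hy hdeg
  have hs : aeval x s ≠ 0 := by
    intro h0
    rw [h0, div_zero] at hrs
    exact hy0 hrs
  have hr : aeval x r ≠ 0 := by
    intro h0
    rw [h0, zero_div] at hrs
    exact hy0 hrs
  have hs0 : s ≠ 0 := by
    rintro rfl
    exact hs (map_zero _)
  have hr0 : r ≠ 0 := by
    rintro rfl
    exact hr (map_zero _)
  have heq : r * r = F * (s * s) := by
    apply aeval_inj hx
    rw [map_mul, map_mul, map_mul, ← hy, hrs]
    field_simp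
  obtain ⟨z, hz⟩ := IsAlgClosed.exists_root F (by
    rw [degree_eq_natDegree hF0, hdeg]
    exact_mod_cast Nat.succ_ne_zero (2 * g + 1))
  have h1 : F.rootMultiplicity z = 1 := by
    have h2 : 0 < F.rootMultiplicity z := (rootMultiplicity_pos hF0).2 hz
    have h3 : ¬ 1 < F.rootMultiplicity z := by
      rw [one_lt_rootMultiplicity_iff_isRoot hF0]
      rintro ⟨-, h4⟩
      exact hF z hz h4
    omega
  have h2 := congrArg (rootMultiplicity z) heq
  rw [rootMultiplicity_mul (mul_ne_zero hr0 hr0),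
    rootMultiplicity_mul (mul_ne_zero hF0 (mul_ne_zero hs0 hs0)),
    rootMultiplicity_mul (mul_ne_zero hs0 hs0), h1] at h2
  omega

theorem adjoin_y (hgen : IntermediateField.adjoin ℂ {x, y} = ⊤) :
    IntermediateField.adjoin (Ct x) {y} = ⊤ := by
  rw [eq_top_iff]
  have h1 : (IntermediateField.adjoin ℂ {x, y} : IntermediateField ℂ K) ≤
      (IntermediateField.adjoin (Ct x) {y}).restrictScalars ℂ := by
    rw [IntermediateField.adjoin_le_iff]
    have hx : x ∈ IntermediateField.adjoin (Ct x) {y} := by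
      have : algebraMap (Ct x) K (IntermediateField.AdjoinSimple.gen ℂ x) = x :=
        IntermediateField.AdjoinSimple.algebraMap_gen ℂ x
      have h2 := (IntermediateField.adjoin (Ct x) {y}).algebraMap_mem
        (IntermediateField.AdjoinSimple.gen ℂ x)
      rwa [this] at h2
    have hy : y ∈ IntermediateField.adjoin (Ct x) {y} :=
      IntermediateField.mem_adjoin_simple_self _ _
    intro z hz
    rw [SetLike.mem_coe, IntermediateField.mem_restrictScalars]
    rcases hz with hz | hz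
    · rw [hz]
      exact hx
    · rw [Set.mem_singleton_iff.1 hz]
      exact hy
  rw [hgen] at h1
  intro z _
  exact h1 (IntermediateField.mem_top)

/-- `y ^ 2` as an element of `ℂ(x)`. -/
noncomputable def Fx (x : K) (F : ℂ[X]) : Ct x := ⟨aeval x F, aeval_mem_Ct x F⟩

theorem coe_Fx (x : K) (F : ℂ[X]) : algebraMap (Ct x) K (Fx x F) = aeval x F := rfl

theorem not_range (h : y ∉ Ct x) : y ∉ (algebraMap (Ct x) K).range := by
  rintro ⟨z, rfl⟩
  exact h z.2

/-! ### valuation rings -/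

theorem mem_of_sq {V : ValuationSubring K} {a : K} (h : a ^ 2 ∈ V) : a ∈ V := by
  rw [Low.mem_iff, map_pow] at h
  rw [Low.mem_iff]
  exact (pow_le_one_iff two_ne_zero).1 h

theorem isU_of_sq {V : ValuationSubring K} {a : K} (h : IsU V (a ^ 2)) : IsU V a := by
  rw [Low.isU_iff, map_pow] at h
  rw [Low.isU_iff]
  exact (pow_eq_one_iff_of_nonneg zero_le two_ne_zero).1 h

omit [Algebra ℂ K] in
theorem inv_inM {V : ValuationSubring K} (hx : x ∉ V) : InM V x⁻¹ := Or.inr (by rwa [inv_inv])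

/-- `(y / x ^ (g + 1)) ^ 2` is the reversed polynomial in `1 / x`. -/
theorem yinf_sq (hx0 : x ≠ 0) (hy : y ^ 2 = aeval x F) (hdeg : F.natDegree = 2 * g + 2) :
    (y * x⁻¹ ^ (g + 1)) ^ 2 = aeval x⁻¹ F.reverse := by
  have h1 : aeval x⁻¹ F.reverse * x ^ F.natDegree = aeval x F := by
    let _ : Invertible x := invertibleOfNonzero hx0
    have := eval₂_reverse_mul_pow (algebraMap ℂ K) x F
    rwa [invOf_eq_inv] at this
  rw [mul_pow, hy, ← pow_mul, ← h1, hdeg, show (g + 1) * 2 = 2 * g + 2 by ring, mul_assoc,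
    ← mul_pow, mul_inv_cancel₀ hx0, one_pow, mul_one]

theorem yinf_isU {V : ValuationSubring K} (hV : OverC V) (hxV : x ∉ V) (hy : y ^ 2 = aeval x F)
    (hdeg : F.natDegree = 2 * g + 2) : IsU V (y * x⁻¹ ^ (g + 1)) := by
  have hx0 : x ≠ 0 := by
    rintro rfl
    exact hxV V.zero_mem
  apply isU_of_sq
  rw [yinf_sq hx0 hy hdeg, Low.aeval_eq_divX, add_comm]
  refine Low.isU_add_inM (Low.isU_const hV ?_) ?_
  · rw [coeff_zero_reverse]
    exact leadingCoeff_ne_zero.2 (F_ne hdeg)
  · exact Low.inM_mul (inv_inM hxV) (Low.aeval_mem hV (Low.inM_mem (inv_inM hxV)) _)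

/-! ### regular differentials: the monomials -/

variable {δ : Derivation ℂ K K}

theorem δ_inv (hδ : δ x = 1) : δ x⁻¹ = -(x⁻¹ ^ 2) := by
  rw [Derivation.leibniz_inv, hδ]
  simp

theorem δ_aeval (hδ : δ x = 1) (p : ℂ[X]) : δ (aeval x p) = aeval x (derivative p) := by
  rw [δ.map_aeval p x, hδ, smul_eq_mul, mul_one]

theorem reg_monomial (hx : Transcendental ℂ x) (hy : y ^ 2 = aeval x F)
    (hdeg : F.natDegree = 2 * g + 2)
    (hF : ∀ z, F.eval z = 0 → F.derivative.eval z ≠ 0) (hδ : δ x = 1) {i : ℕ} (hi : i < g) :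
    Reg δ (x ^ i * y⁻¹) := by
  intro V hV
  have hy0 := y_ne hx hy hdeg
  by_cases hxV : x ∈ V
  · by_cases hyV : y⁻¹ ∈ V
    · have := Low.regD_base δ (V.mul_mem _ _ (pow_mem hxV i) hyV) hxV
      rwa [hδ, mul_one] at this
    · have hyM : InM V y := Or.inr hyV
      have hcop : IsCoprime F (derivative F) := by
        rw [Polynomial.isCoprime_iff_aeval_ne_zero_of_isAlgClosed ℂ ℂ]
        intro a
        by_cases ha : F.eval a = 0
        · right
          rw [coe_aeval_eq_eval]
          exact hF a ha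
        · left
          rw [coe_aeval_eq_eval]
          exact ha
      obtain ⟨a, b, hab⟩ := hcop
      have h1 : aeval x a * aeval x F + aeval x b * aeval x (derivative F) = 1 := by
        rw [← map_mul, ← map_mul, ← map_add, hab, map_one]
      have h2 : IsU V (aeval x b * aeval x (derivative F)) := by
        have h3 : aeval x b * aeval x (derivative F) = 1 + -(aeval x a * aeval x F) := by
          linear_combination h1
        rw [h3]
        refine Low.isU_add_inM (Low.isU_iff.2 (by simp)) (Low.inM_neg ?_)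
        rw [← hy, pow_two]
        exact Low.inM_mul' (Low.aeval_mem hV hxV a) (Low.inM_mul hyM (Low.inM_mem hyM))
      have h3 : aeval x (derivative F) ≠ 0 := right_ne_zero_of_mul h2.1
      have h4 : aeval x b ≠ 0 := left_ne_zero_of_mul h2.1
      have h5 : (aeval x (derivative F))⁻¹ ∈ V := by
        have : (aeval x (derivative F))⁻¹ =
            aeval x b * (aeval x b * aeval x (derivative F))⁻¹ := by
          field_simp
        rw [this]
        exact V.mul_mem _ _ (Low.aeval_mem hV hxV b) (Low.isU_inv_mem h2)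
      have h6 : 2 * y * δ y = aeval x (derivative F) := by
        have := congrArg δ hy
        rw [δ_aeval hδ, Derivation.leibniz_pow] at this
        simp only [nsmul_eq_mul, smul_eq_mul, Nat.cast_ofNat] at this
        rw [← this]
        ring
      have h7 : x ^ i * y⁻¹ = (2 * x ^ i * (aeval x (derivative F))⁻¹) * δ y := by
        have h8 : (aeval x (derivative F))⁻¹ * (2 * y * δ y) = 1 := by
          rw [h6, inv_mul_cancel₀ h3]
        have h9 : y⁻¹ * (y * ((aeval x (derivative F))⁻¹ * (2 * δ y))) = y⁻¹ * 1 := by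
          rw [← h8]
          ring
        rw [← mul_assoc, inv_mul_cancel₀ hy0, one_mul, mul_one] at h9
        rw [← h9]
        ring
      rw [h7]
      refine Low.regD_base δ ?_ (Low.inM_mem hyM)
      have h2V : (2 : K) ∈ V := by
        have := hV 2
        rwa [map_ofNat] at this
      exact V.mul_mem _ _ (V.mul_mem _ _ h2V (pow_mem hxV i)) h5
  · have hx0 : x ≠ 0 := by
      rintro rfl
      exact hxV V.zero_mem
    have ht := inv_inM hxV
    have hU := yinf_isU hV hxV hy hdeg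
    have e : x ^ i * y⁻¹ =
        (-(x⁻¹ ^ (g - 1 - i) * (y * x⁻¹ ^ (g + 1))⁻¹)) * δ x⁻¹ := by
      rw [δ_inv hδ]
      have h1 : x ^ i * x ^ (g - 1 - i) * x ^ 2 = x ^ (g + 1) := by
        rw [← pow_add, ← pow_add]
        congr 1
        omega
      rw [inv_pow, inv_pow, inv_pow, ← h1]
      field_simp
    rw [e]
    exact Low.regD_base δ (V.neg_mem _ (V.mul_mem _ _ (pow_mem (Low.inM_mem ht) _)
      (Low.isU_inv_mem hU))) (Low.inM_mem ht)

theorem reg_poly (hx : Transcendental ℂ x) (hy : y ^ 2 = aeval x F)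
    (hdeg : F.natDegree = 2 * g + 2)
    (hF : ∀ z, F.eval z = 0 → F.derivative.eval z ≠ 0) (hδ : δ x = 1) {p : ℂ[X]}
    (hp : p ∈ degreeLT ℂ g) : Reg δ (aeval x p * y⁻¹) := by
  intro V hV
  have h1 : aeval x p * y⁻¹ = ∑ i ∈ Finset.range g, algebraMap ℂ K (p.coeff i) * (x ^ i * y⁻¹) := by
    by_cases hp0 : p = 0
    · subst hp0
      simp
    have h2 : p.natDegree < g := by
      rw [mem_degreeLT] at hp
      exact (natDegree_lt_iff_degree_lt hp0).2 hp
    rw [aeval_eq_sum_range' h2, Finset.sum_mul]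
    refine Finset.sum_congr rfl fun i _ => ?_
    rw [Algebra.smul_def, mul_assoc]
  rw [h1]
  refine Low.RegD.sum _ _ fun i hi => Low.RegD.mul (hV _) ?_
  exact reg_monomial hx hy hdeg hF hδ (Finset.mem_range.1 hi) V hV

/-! ### regular differentials: the converse -/

theorem trace_eq_two (E : IntermediateField ℂ K) (x : K) (hE : E = Ct x) {y : K}
    (hy : ∃ c : Ct x, y ^ 2 = algebraMap (Ct x) K c) (hyE : y ∉ Ct x)
    (hgen : IntermediateField.adjoin (Ct x) {y} = ⊤) (a : E) :
    ((Algebra.trace E K (a : K) : E) : K) = 2 * (a : K) := by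
  subst hE
  obtain ⟨c, hc⟩ := hy
  have h1 := trace_quad hc (not_range hyE) hgen a 0
  rw [map_zero, zero_mul, add_zero] at h1
  have h2 : algebraMap (Ct x) K a = (a : K) := rfl
  rw [← h2, h1]
  rfl

theorem finite_Ct (E : IntermediateField ℂ K) (x : K) (hE : E = Ct x) {y : K}
    (hy : ∃ c : Ct x, y ^ 2 = algebraMap (Ct x) K c) (hyE : y ∉ Ct x)
    (hgen : IntermediateField.adjoin (Ct x) {y} = ⊤) : FiniteDimensional E K := by
  subst hE
  obtain ⟨c, hc⟩ := hy
  exact finite_quad hc (not_range hyE) hgen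

theorem reg_scale {u : K} {f : K} (h : Reg δ f) : Reg (u • δ) (u * f) := by
  intro V hV
  have h1 := h V hV
  unfold RegD at h1 ⊢
  clear h
  induction h1 using AddSubgroup.closure_induction with
  | mem z hz =>
    obtain ⟨b, hb, a, ha, rfl⟩ := hz
    apply AddSubgroup.subset_closure
    refine ⟨b, hb, a, ha, ?_⟩
    rw [Derivation.smul_apply, smul_eq_mul]
    ring
  | zero => rw [mul_zero]; exact AddSubgroup.zero_mem _
  | add z w _ _ hz hw => rw [mul_add]; exact AddSubgroup.add_mem _ hz hw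
  | neg z _ hz => rw [mul_neg]; exact AddSubgroup.neg_mem _ hz

/-- comparison of degrees -/
theorem degree_bound (hx : Transcendental ℂ x) {p q : ℂ[X]} (hp : p ≠ 0)
    (h : aeval x p * x ^ 2 * x⁻¹ ^ (g + 1) = aeval x⁻¹ q) : p.natDegree < g := by
  have hx0 : x ≠ 0 := by
    rintro rfl
    exact hx isAlgebraic_zero
  have h1 : aeval x⁻¹ q * x ^ q.natDegree = aeval x (reflect q.natDegree q) := by
    let _ : Invertible x := invertibleOfNonzero hx0
    have := eval₂_reflect_mul_pow (algebraMap ℂ K) x q.natDegree (reflect q.natDegree q)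
      (by
        have := natDegree_reflect_le (N := q.natDegree) (p := q)
        rwa [max_self] at this)
    rwa [invOf_eq_inv, reflect_reflect] at this
  have h2 : p * X ^ (2 + q.natDegree) = reflect q.natDegree q * X ^ (g + 1) := by
    apply aeval_inj hx
    rw [map_mul, map_mul, map_pow, map_pow, aeval_X, ← h1, ← h, pow_add, inv_pow]
    field_simp
  have h3 := congrArg natDegree h2
  have hr : reflect q.natDegree q ≠ 0 := by
    intro h0
    rw [h0, zero_mul] at h2
    exact mul_ne_zero hp (pow_ne_zero _ X_ne_zero) h2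
  rw [natDegree_mul hp (pow_ne_zero _ X_ne_zero), natDegree_mul hr (pow_ne_zero _ X_ne_zero),
    natDegree_X_pow, natDegree_X_pow] at h3
  have h4 := natDegree_reflect_le (N := q.natDegree) (p := q)
  rw [max_self] at h4
  omega

theorem exists_poly (hx : Transcendental ℂ x) (hgen : IntermediateField.adjoin ℂ {x, y} = ⊤)
    (hy : y ^ 2 = aeval x F) (hdeg : F.natDegree = 2 * g + 2)
    (hF : ∀ z, F.eval z = 0 → F.derivative.eval z ≠ 0) (hδ : δ x = 1) {f : K} (hf : Reg δ f) :
    ∃ p ∈ degreeLT ℂ g, f = aeval x p * y⁻¹ := by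
  have hx0 : x ≠ 0 := by
    rintro rfl
    exact hx isAlgebraic_zero
  have hyE := y_not_mem hx hy hdeg hF
  have hy0 := y_ne hx hy hdeg
  have hgen' := adjoin_y hgen
  have hyc : y ^ 2 = algebraMap (Ct x) K (Fx x F) := by rw [coe_Fx, hy]
  have hfin : FiniteDimensional (Ct x) K := finite_quad hyc (not_range hyE) hgen'
  have hfin' : FiniteDimensional (Ct x⁻¹) K :=
    finite_Ct _ x (Ct_inv x) ⟨_, hyc⟩ hyE hgen'
  have hTr := specTrace specLL specDer
  obtain ⟨a, b, hab⟩ := exists_coord hyc hgen' f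
  -- the first coordinate is zero
  have ha : a = 0 := by
    have h1 := (hTr K x δ hx hfin hδ f).2 hf
    rw [hab, trace_quad hyc (not_range hyE) hgen'] at h1
    exact (mul_eq_zero.1 h1).resolve_left two_ne_zero
  have hfb : f = algebraMap (Ct x) K b * y := by
    rw [hab, ha, map_zero, zero_add]
  -- the second one is a polynomial divided by `F`
  obtain ⟨p, hp⟩ := (hTr K x δ hx hfin hδ (y * f)).1 (by
    intro V hV hxV
    refine Low.RegD.mul (mem_of_sq ?_) (hf V hV)
    rw [hy]
    exact Low.aeval_mem hV hxV F)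
  have h1 : y * f = algebraMap (Ct x) K (b * Fx x F) + algebraMap (Ct x) K 0 * y := by
    rw [hfb, map_mul, ← hyc, map_zero]
    ring
  have h2 : (2 : K) * (y * f) = aeval x p := by
    rw [← hp]
    conv_rhs => rw [h1, trace_quad hyc (not_range hyE) hgen']
    rw [h1, map_zero, zero_mul, add_zero]
    rfl
  have h2K : (2 : K) ≠ 0 := by
    rw [← map_ofNat (algebraMap ℂ K) 2]
    exact (_root_.map_ne_zero _).2 two_ne_zero
  have h3 : f = aeval x (C (2⁻¹ : ℂ) * p) * y⁻¹ := by
    rw [map_mul, aeval_C, ← h2, map_inv₀, map_ofNat]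
    field_simp
  refine ⟨C (2⁻¹ : ℂ) * p, ?_, h3⟩
  by_cases hp0 : p = 0
  · rw [hp0, mul_zero]
    exact Submodule.zero_mem _
  -- the bound of the degree
  have htr : Transcendental ℂ x⁻¹ := by
    intro h0
    exact hx (inv_inv x ▸ h0.inv)
  have hδ' : ((-x ^ 2) • δ : Derivation ℂ K K) x⁻¹ = 1 := by
    rw [Derivation.smul_apply, δ_inv hδ, smul_eq_mul]
    field_simp
  obtain ⟨q, hq⟩ := (hTr K x⁻¹ ((-x ^ 2) • δ) htr hfin' hδ'
    ((y * x⁻¹ ^ (g + 1)) * (-x ^ 2 * f))).1 (by
      intro V hV htV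
      refine Low.RegD.mul (mem_of_sq ?_) (reg_scale hf V hV)
      rw [yinf_sq hx0 hy hdeg]
      exact Low.aeval_mem hV htV _)
  have hmem : (y * x⁻¹ ^ (g + 1)) * (-x ^ 2 * f) ∈ Ct x⁻¹ := by
    rw [Ct_inv]
    have h4 : (y * x⁻¹ ^ (g + 1)) * (-x ^ 2 * f) =
        (x⁻¹ ^ (g + 1) * (-x ^ 2)) * aeval x (C (2⁻¹ : ℂ) * p) := by
      rw [h3]
      field_simp
    rw [h4]
    have hxm := IntermediateField.mem_adjoin_simple_self ℂ x
    exact mul_mem (mul_mem (pow_mem (inv_mem hxm) _) (neg_mem (pow_mem hxm _))) (aeval_mem_Ct _ _)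
  have h5 := trace_eq_two (Ct x⁻¹) x (Ct_inv x) ⟨_, hyc⟩ hyE hgen' ⟨_, hmem⟩
  have h6 : (2 : K) * ((y * x⁻¹ ^ (g + 1)) * (-x ^ 2 * f)) = aeval x⁻¹ q := by
    rw [← hq]
    exact h5.symm
  have h7 : aeval x p * x ^ 2 * x⁻¹ ^ (g + 1) = aeval x⁻¹ (-q) := by
    rw [map_neg, ← h6, ← h2]
    ring
  have h8 := degree_bound hx hp0 h7
  rw [mem_degreeLT]
  have h9 : (C (2⁻¹ : ℂ) * p) ≠ 0 := mul_ne_zero (by simp) hp0
  rw [← natDegree_lt_iff_degree_lt h9, natDegree_C_mul (by simp)]
  exact h8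

end HG

open HG in
/-- HG -/
theorem specHG : SpecHG := by
  intro K _ _ x y F g hx hgen hy hdeg hF
  have hyE := y_not_mem hx hy hdeg hF
  have hy0 := y_ne hx hy hdeg
  have hyc : y ^ 2 = algebraMap (Ct x) K (Fx x F) := by rw [coe_Fx, hy]
  have hfin : FiniteDimensional (Ct x) K := finite_quad hyc (not_range hyE) (adjoin_y hgen)
  have halg : Algebra.IsAlgebraic (Ct x) K := Algebra.IsAlgebraic.of_finite _ _
  obtain ⟨δ, hδ⟩ := (specDer K x hx halg).1
  let M : ℂ[X] →ₗ[ℂ] K := (LinearMap.mulRight ℂ y⁻¹).comp (aeval x : ℂ[X] →ₐ[ℂ] K).toLinearMap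
  have hM : ∀ p, M p = aeval x p * y⁻¹ := fun p => rfl
  have hMinj : Function.Injective M := by
    intro a b hab
    rw [hM, hM] at hab
    exact aeval_inj hx (mul_right_cancel₀ (inv_ne_zero hy0) hab)
  let S : Submodule ℂ K := (degreeLT ℂ g).map M
  have hS : ∀ f, f ∈ S ↔ Reg δ f := by
    intro f
    constructor
    · rintro ⟨p, hp, rfl⟩
      exact reg_poly hx hy hdeg hF hδ hp
    · intro hf
      obtain ⟨p, hp, h⟩ := exists_poly hx hgen hy hdeg hF hδ hf
      exact ⟨p, hp, h.symm⟩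
  obtain ⟨e⟩ := (specKae K x δ hx halg hδ).2 S hS
  let e2 : degreeLT ℂ g ≃ₗ[ℂ] S := Submodule.equivMapOfInjective M hMinj (degreeLT ℂ g)
  let e3 : regDiff K ≃ₗ[ℂ] (Fin g → ℂ) := e.trans (e2.symm.trans (degreeLTEquiv ℂ g))
  refine ⟨e3.symm.finiteDimensional, ?_⟩
  rw [e3.finrank_eq, Module.finrank_fin_fun]

end MP743d1e.Hy
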