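import Pool.Agent.Lib.MP_743d1e_nt.HY.Spec
import Pool.Agent.Lib.MP_743d1e_nt.Kae

/-!
# Module INT: `12 * {(x - s i) / (x - s 0), h}` has trivial tame symbol everywhere
-/

set_option autoImplicit false

namespace MP743d1e.Hy

open scoped BigOperators
open Polynomial MP743d1e.Integ

namespace INTM

variable {K : Type} [Field K] {v : DVal K}

lemma nn_of_pos {f : K} (h : Pos v f) : NN v f := by
  rcases h with h | ⟨u, hu, h⟩
  · exact Or.inl h
  · exact Or.inr ⟨u, hu, by omega⟩

lemma not_pos_one : ¬ Pos v (1 : K) := by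
  intro h
  have h1 : Pos v ((1 : Kˣ) : K) := by simpa using h
  rw [pos_unit, v.ord_one] at h1
  omega

lemma nn_pow {f : K} (hf : NN v f) (m : ℕ) : NN v (f ^ m) := by
  induction m with
  | zero => rw [pow_zero]; exact nn_one
  | succ m ih => rw [pow_succ]; exact nn_mul ih hf

lemma pos_pow {f : K} (hf : Pos v f) {m : ℕ} (hm : 1 ≤ m) : Pos v (f ^ m) := by
  obtain ⟨m, rfl⟩ : ∃ j, m = j + 1 := ⟨m - 1, by omega⟩
  rw [pow_succ, mul_comm]
  exact pos_mul_nn hf (nn_pow (nn_of_pos hf) m)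

lemma pos_of_sq {f : K} (hf : Pos v (f ^ 2)) : Pos v f := by
  by_cases h0 : f = 0
  · exact Or.inl h0
  · have h1 : ((Units.mk0 f h0 ^ 2 : Kˣ) : K) = f ^ 2 := by simp
    rw [← h1, pos_unit, v.ord_pow] at hf
    refine Or.inr ⟨Units.mk0 f h0, rfl, ?_⟩
    push_cast at hf
    omega

/-- The tame symbol of `12 • {u, w}` is trivial as soon as the twelfth power of the tame unit is a
one-unit. -/
lemma tame_twelve {u w : Kˣ} (h : (v.tameUnit u w) ^ 12 ∈ v.U1) : tame v (12 • sym u w) = 0 := by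
  rw [map_nsmul, tame_sym, ← ofMul_pow, ← QuotientGroup.mk_pow]
  rw [(QuotientGroup.eq_one_iff _).mpr h]
  rfl

lemma isOne_pow_of_pos {w : Kˣ} {m : ℕ} (h : Pos v ((w : K) ^ m - 1)) : w ^ m ∈ v.U1 := by
  rw [DVal.mem_U1]
  apply isOne_of_pos
  rw [Units.val_pow_eq_pow_val]
  exact h

lemma pow_twelve {w : Kˣ} {m : ℕ} (h : w ^ m ∈ v.U1) (hm : m ∣ 12) : w ^ 12 ∈ v.U1 := by
  obtain ⟨j, hj⟩ := hm
  rw [hj, pow_mul]
  exact Subgroup.pow_mem _ h j

/-- The cyclotomic relation. -/
lemma unit_twelve {g : ℕ} (D : Dat g) {w : Kˣ} (hw : NN v (w : K))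
    (h : Pos v ((w : K) ^ 2 - (D.e : K) * (w : K) + (D.ε : K))) : w ^ 12 ∈ v.U1 := by
  rcases D.adm with ⟨hε, he | he⟩ | ⟨-, ⟨hε, he | he | he⟩ | ⟨hε, he⟩⟩
  · rw [hε, he] at h
    have h1 : Pos v ((w : K) - 1) := by
      apply pos_of_sq
      have e : ((w : K) - 1) ^ 2 = (w : K) ^ 2 - ((2 : ℤ) : K) * (w : K) + ((1 : ℤ) : K) := by
        push_cast; ring
      rw [e]; exact h
    refine pow_twelve (m := 1) (isOne_pow_of_pos ?_) (by norm_num)
    rw [pow_one]; exact h1
  · rw [hε, he] at h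
    have h1 : Pos v ((w : K) + 1) := by
      apply pos_of_sq
      have e : ((w : K) + 1) ^ 2 = (w : K) ^ 2 - ((-2 : ℤ) : K) * (w : K) + ((1 : ℤ) : K) := by
        push_cast; ring
      rw [e]; exact h
    refine pow_twelve (m := 2) (isOne_pow_of_pos ?_) (by norm_num)
    have e : (w : K) ^ 2 - 1 = ((w : K) + 1) * ((w : K) - 1) := by ring
    rw [e]
    exact pos_mul_nn h1 (nn_sub hw nn_one)
  · rw [hε, he] at h
    refine pow_twelve (m := 4) (isOne_pow_of_pos ?_) (by norm_num)
    have e : (w : K) ^ 4 - 1 = ((w : K) ^ 2 - ((0 : ℤ) : K) * (w : K) + ((1 : ℤ) : K)) *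
        ((w : K) ^ 2 - 1) := by push_cast; ring
    rw [e]
    exact pos_mul_nn h (nn_sub (nn_pow hw 2) nn_one)
  · rw [hε, he] at h
    refine pow_twelve (m := 6) (isOne_pow_of_pos ?_) (by norm_num)
    have e : (w : K) ^ 6 - 1 = ((w : K) ^ 2 - ((1 : ℤ) : K) * (w : K) + ((1 : ℤ) : K)) *
        (((w : K) + 1) * ((w : K) ^ 3 - 1)) := by push_cast; ring
    rw [e]
    exact pos_mul_nn h (nn_mul (nn_add hw nn_one) (nn_sub (nn_pow hw 3) nn_one))
  · rw [hε, he] at h
    refine pow_twelve (m := 3) (isOne_pow_of_pos ?_) (by norm_num)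
    have e : (w : K) ^ 3 - 1 = ((w : K) ^ 2 - ((-1 : ℤ) : K) * (w : K) + ((1 : ℤ) : K)) *
        ((w : K) - 1) := by push_cast; ring
    rw [e]
    exact pos_mul_nn h (nn_sub hw nn_one)
  · rw [hε, he] at h
    refine pow_twelve (m := 2) (isOne_pow_of_pos ?_) (by norm_num)
    have e : (w : K) ^ 2 - 1 = (w : K) ^ 2 - ((0 : ℤ) : K) * (w : K) + ((-1 : ℤ) : K) := by
      push_cast; ring
    rw [e]
    exact h

end INTM

open INTM in
theorem specINT : SpecINT := by
  classical
  intro K _ _ g D lam x h hc u hh i hu hhh v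
  have hεε : (D.ε : K) * (D.ε : K) = 1 := by
    rcases D.adm with h0 | ⟨-, h0 | h0⟩ <;> rw [h0.1] <;> norm_num
  apply tame_twelve
  by_cases hx : NN v x
  · have hT : NN v (D.T lam x) := by
      unfold Dat.T
      exact nn_mul (nn_int _) (nn_prod _ _ fun j _ => nn_pow (nn_sub hx (nn_int _)) _)
    have hU : NN v ((D.e : K) + D.T lam x) := nn_add (nn_int _) hT
    have heq := hc.eqn
    -- `h` is integral
    have hh0 : h ≠ 0 := by rw [← hhh]; exact hh.ne_zero
    have hhN : NN v h := by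
      by_contra hn
      have hp := pos_inv_of_not_nn hn
      apply not_pos_one (v := v)
      have e : (1 : K) = h⁻¹ * (((D.e : K) + D.T lam x) - (D.ε : K) * h⁻¹) := by
        field_simp
        linear_combination heq
      rw [e]
      exact pos_mul_nn hp (nn_sub hU (nn_mul (nn_int _) (nn_of_pos hp)))
    have hord : v.ord hh = 0 := by
      refine ord_zero_of_mul (f := h) (g := (D.ε : K) * (((D.e : K) + D.T lam x) - h)) hhN
        (nn_mul (nn_int _) (nn_sub hU hhN)) ?_ hh hhh
      linear_combination -(D.ε : K) * heq + hεε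
    have etame : v.tameUnit u hh = hh ^ (-(v.ord u)) := by
      unfold DVal.tameUnit
      rw [hord]; simp
    by_cases hu0 : v.ord u = 0
    · rw [etame, hu0]; simp
    · -- one of the linear factors has positive order
      have hx0 : ∀ c : ℤ, x - (c : K) ≠ 0 := by
        intro c h0
        apply hc.transc
        refine ⟨X - C (c : ℚ), X_sub_C_ne_zero _, ?_⟩
        simp only [map_sub, aeval_X, aeval_C]
        simpa using h0
      have hN : ∀ c : ℤ, 0 ≤ v.ord (Units.mk0 _ (hx0 c)) := by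
        intro c
        rw [← nn_unit]
        simpa using nn_sub hx (nn_int (v := v) c)
      have hmul : u * Units.mk0 _ (hx0 (D.s 0)) = Units.mk0 _ (hx0 (D.s i)) := by
        apply Units.ext
        simpa using hu
      have hom := v.ord_mul u (Units.mk0 _ (hx0 (D.s 0)))
      rw [hmul] at hom
      have hex : ∃ j, Pos v (x - (D.s j : K)) := by
        by_cases h1 : 1 ≤ v.ord (Units.mk0 _ (hx0 (D.s 0)))
        · exact ⟨0, Or.inr ⟨_, rfl, h1⟩⟩
        · refine ⟨i, Or.inr ⟨Units.mk0 _ (hx0 (D.s i)), rfl, ?_⟩⟩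
          have h2 := hN (D.s 0)
          have h3 := hN (D.s i)
          omega
      obtain ⟨j, hj⟩ := hex
      have hTP : Pos v (D.T lam x) := by
        have hw : 1 ≤ D.w j := by
          rcases D.w_mem j with h0 | h0 <;> omega
        have e : D.T lam x = (x - (D.s j : K)) ^ D.w j *
            ((lam : K) * ∏ j' ∈ Finset.univ.erase j, (x - (D.s j' : K)) ^ D.w j') := by
          unfold Dat.T
          rw [← Finset.mul_prod_erase Finset.univ (fun j' => (x - (D.s j' : K)) ^ D.w j')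
            (Finset.mem_univ j)]
          ring
        rw [e]
        exact pos_mul_nn (pos_pow hj hw) (nn_mul (nn_int _)
          (nn_prod _ _ fun j' _ => nn_pow (nn_sub hx (nn_int _)) _))
      have hrel : Pos v ((hh : K) ^ 2 - (D.e : K) * (hh : K) + (D.ε : K)) := by
        have e : (hh : K) ^ 2 - (D.e : K) * (hh : K) + (D.ε : K) = D.T lam x * h := by
          rw [hhh]
          linear_combination heq
        rw [e]
        exact pos_mul_nn hTP hhN
      have h12 : hh ^ 12 ∈ v.U1 := unit_twelve D (by rw [hhh]; exact hhN) hrel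
      rw [etame, ← zpow_natCast, ← zpow_mul, mul_comm, zpow_mul, zpow_natCast]
      exact Subgroup.zpow_mem _ h12 _
  · exact Subgroup.pow_mem _ (isOne_tame_left (isOne_of_not_nn_x hx _ _ u hu)) 12

end MP743d1e.Hy
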